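import Pool.Agent.DSX.Stm

/-!
# DSX, piece AVG
-/

set_option autoImplicit false

namespace Pool.Agent.DSX

open Finset Pointwise

theorem t_AVG (h1 : S_SUP) (h2 : S_JEN) : S_AVG := by
  intro d A K hA hne hK
  have hs := h1 d A hA
  have hj := h2 _ A (fun x => (2 : ℝ) ^ (supp x).card) hne (fun x _ => by positivity)
  have hc : (0 : ℝ) < A.card := by exact_mod_cast hne.card_pos
  have e : ∑ x ∈ A, Real.log ((2 : ℝ) ^ (supp x).card) =
      (∑ x ∈ A, ((supp x).card : ℝ)) * Real.log 2 := by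
    rw [Finset.sum_mul]
    exact Finset.sum_congr rfl fun x _ => by rw [Real.log_pow]
  rw [e] at hj
  refine hj.trans ?_
  apply mul_le_mul_of_nonneg_left _ hc.le
  have hs' : ∑ x ∈ A, (2 : ℝ) ^ (supp x).card ≤ ((A + A).card : ℝ) := by exact_mod_cast hs
  have hpos : 0 < ∑ x ∈ A, (2 : ℝ) ^ (supp x).card :=
    Finset.sum_pos (fun x _ => by positivity) hne
  apply Real.log_le_log (div_pos hpos hc)
  rw [div_le_iff₀ hc]
  linarith

end Pool.Agent.DSX
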