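import Pool.Agent.DSX.Stm

/-!
# Project DSX, piece BOX (helper41)
-/

set_option autoImplicit false
namespace Pool.Agent.DSX
open Finset Pointwise

namespace BOXx

theorem cut_le {d : ℕ} (A : Finset (Fin d → ℕ)) (R : Finset (Fin d)) (hA : A.Nonempty) :
    (0 : ℝ) < ((A.image (cut R)).card : ℝ) := by
  have h : 0 < (A.image (cut R)).card := Finset.card_pos.2 (hA.image _)
  exact_mod_cast h

/-- the fibre over `a` of the coordinate `j`, moved to zero -/
def fib {d : ℕ} (A : Finset (Fin d → ℕ)) (j : Fin d) (a : ℕ) : Finset (Fin d → ℕ) :=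
  (A.filter fun x => x j = a).image fun x => Function.update x j 0

theorem card_fib {d : ℕ} (A : Finset (Fin d → ℕ)) (j : Fin d) (a : ℕ) :
    (fib A j a).card = (A.filter fun x => x j = a).card := by
  unfold fib
  refine Finset.card_image_of_injOn ?_
  intro x hx y hy h
  have hx1 : x j = a := (Finset.mem_filter.1 (Finset.mem_coe.1 hx)).2
  have hy1 : y j = a := (Finset.mem_filter.1 (Finset.mem_coe.1 hy)).2
  funext i
  by_cases hi : i = j
  · rw [hi, hx1, hy1]
  · have h1 := congrFun h i
    simpa [Function.update_of_ne hi] using h1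

theorem sum_card {d : ℕ} (A : Finset (Fin d → ℕ)) (j : Fin d) :
    ∑ a ∈ A.image (fun x => x j), (fib A j a).card = A.card := by
  rw [Finset.card_eq_sum_card_image (fun x : Fin d → ℕ => x j) A]
  exact Finset.sum_congr rfl fun a _ => card_fib A j a

theorem fib_pos {d : ℕ} (A : Finset (Fin d → ℕ)) (j : Fin d) (a : ℕ)
    (ha : a ∈ A.image (fun x => x j)) : (fib A j a).Nonempty := by
  obtain ⟨x, hx, hxa⟩ := Finset.mem_image.1 ha
  exact ⟨Function.update x j 0, Finset.mem_image.2 ⟨x, Finset.mem_filter.2 ⟨hx, hxa⟩, rfl⟩⟩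

theorem fib_cut_sub {d : ℕ} (A : Finset (Fin d → ℕ)) (j : Fin d) (a : ℕ) (R : Finset (Fin d))
    (hj : j ∉ R) : (fib A j a).image (cut R) ⊆ A.image (cut R) := by
  intro z hz
  obtain ⟨y, hy, rfl⟩ := Finset.mem_image.1 hz
  obtain ⟨x, hx, rfl⟩ := Finset.mem_image.1 hy
  refine Finset.mem_image.2 ⟨x, (Finset.mem_filter.1 hx).1, ?_⟩
  funext i
  unfold cut
  by_cases hi : i ∈ R
  · have hij : i ≠ j := fun h => hj (h ▸ hi)
    rw [if_pos hi, if_pos hi, Function.update_of_ne hij]
  · rw [if_neg hi, if_neg hi]

theorem fib_cut_card {d : ℕ} (A : Finset (Fin d → ℕ)) (j : Fin d) (R : Finset (Fin d))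
    (hj : j ∈ R) :
    ∑ a ∈ A.image (fun x => x j), ((fib A j a).image (cut (R.erase j))).card ≤
      (A.image (cut R)).card := by
  have h1 : (A.image (cut R)).card = ∑ a ∈ A.image (fun x => x j),
      ((A.image (cut R)).filter fun z => z j = a).card := by
    refine Finset.card_eq_sum_card_fiberwise ?_
    intro z hz
    obtain ⟨x, hx, rfl⟩ := Finset.mem_image.1 (Finset.mem_coe.1 hz)
    refine Finset.mem_coe.2 (Finset.mem_image.2 ⟨x, hx, ?_⟩)
    change x j = if j ∈ R then x j else 0
    rw [if_pos hj]
  rw [h1]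
  refine Finset.sum_le_sum fun a _ => ?_
  have h2 : (fib A j a).image (cut (R.erase j)) ⊆
      ((A.image (cut R)).filter fun z => z j = a).image fun z => Function.update z j 0 := by
    intro z hz
    obtain ⟨y, hy, rfl⟩ := Finset.mem_image.1 hz
    obtain ⟨x, hx, rfl⟩ := Finset.mem_image.1 hy
    obtain ⟨hx1, hx2⟩ := Finset.mem_filter.1 hx
    refine Finset.mem_image.2 ⟨cut R x, Finset.mem_filter.2 ⟨Finset.mem_image.2 ⟨x, hx1, rfl⟩, ?_⟩, ?_⟩
    · unfold cut
      rw [if_pos hj]
      exact hx2
    · funext i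
      unfold cut
      by_cases hi : i = j
      · subst hi
        rw [Function.update_self, if_neg (Finset.notMem_erase i R)]
      · rw [Function.update_of_ne hi, Function.update_of_ne hi]
        by_cases hR : i ∈ R
        · rw [if_pos hR, if_pos (Finset.mem_erase.2 ⟨hi, hR⟩)]
        · rw [if_neg hR, if_neg (fun h => hR (Finset.mem_erase.1 h).2)]
  exact (Finset.card_le_card h2).trans Finset.card_image_le

theorem main (h : S_LSI) {d : ℕ} (U : Finset (Fin d)) : ∀ A : Finset (Fin d → ℕ), A.Nonempty →
    (∀ x ∈ A, ∀ i, i ∉ U → x i = 0) → ∃ c : Fin d → ℝ, (∀ i, i ∉ U → c i = 0) ∧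
      (∀ R : Finset (Fin d), ∑ i ∈ R, c i ≤ Real.log ((A.image (cut R)).card)) ∧
      ∑ i ∈ U, c i = Real.log A.card := by
  induction U using Finset.induction_on with
  | empty =>
    intro A hA h0
    refine ⟨fun _ => 0, fun _ _ => rfl, fun R => ?_, ?_⟩
    · rw [Finset.sum_const_zero]
      have h1 : 1 ≤ (A.image (cut R)).card := Finset.card_pos.2 (hA.image _)
      exact Real.log_nonneg (by exact_mod_cast h1)
    · have h1 : A = {0} := by
        refine Finset.eq_singleton_iff_nonempty_unique_mem.2 ⟨hA, fun x hx => ?_⟩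
        funext i
        exact h0 x hx i (Finset.notMem_empty i)
      rw [h1, Finset.sum_empty, Finset.card_singleton, Nat.cast_one, Real.log_one]
  | insert j U hj ih =>
    intro A hA h0
    have hcA : (0 : ℝ) < A.card := by exact_mod_cast Finset.card_pos.2 hA
    have hex : ∀ a : ℕ, ∃ c : Fin d → ℝ, a ∈ A.image (fun x => x j) →
        (∀ i, i ∉ U → c i = 0) ∧
        (∀ R : Finset (Fin d), ∑ i ∈ R, c i ≤ Real.log (((fib A j a).image (cut R)).card)) ∧
        ∑ i ∈ U, c i = Real.log (fib A j a).card := by
      intro a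
      by_cases ha : a ∈ A.image (fun x => x j)
      · obtain ⟨c, hc⟩ := ih (fib A j a) (fib_pos A j a ha) (by
          intro y hy i hi
          obtain ⟨x, hx, rfl⟩ := Finset.mem_image.1 hy
          by_cases hij : i = j
          · rw [hij, Function.update_self]
          · rw [Function.update_of_ne hij]
            exact h0 x (Finset.mem_filter.1 hx).1 i (fun h => by
              rcases Finset.mem_insert.1 h with h | h
              · exact hij h
              · exact hi h))
        exact ⟨c, fun _ => hc⟩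
      · exact ⟨fun _ => 0, fun h => absurd h ha⟩
    choose c hc using hex
    set V := A.image (fun x => x j) with hV
    let w : ℕ → ℝ := fun a => ((fib A j a).card : ℝ) / A.card
    have hfp : ∀ a ∈ V, (0 : ℝ) < (fib A j a).card := fun a ha => by
      exact_mod_cast Finset.card_pos.2 (fib_pos A j a ha)
    have hw : ∀ a ∈ V, 0 < w a := fun a ha => div_pos (hfp a ha) hcA
    have hw1 : ∑ a ∈ V, w a = 1 := by
      change ∑ a ∈ V, ((fib A j a).card : ℝ) / A.card = 1
      rw [← Finset.sum_div, ← Nat.cast_sum, sum_card A j]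
      exact div_self hcA.ne'
    let C : Fin d → ℝ := fun i => if i = j then ∑ a ∈ V, w a * (-Real.log (w a))
      else ∑ a ∈ V, w a * c a i
    have hCj : C j = ∑ a ∈ V, w a * (-Real.log (w a)) := if_pos rfl
    have hCi : ∀ R : Finset (Fin d), j ∉ R →
        ∑ i ∈ R, C i = ∑ a ∈ V, w a * ∑ i ∈ R, c a i := by
      intro R hR
      have h1 : ∑ i ∈ R, C i = ∑ i ∈ R, ∑ a ∈ V, w a * c a i :=
        Finset.sum_congr rfl fun i hi => if_neg (ne_of_mem_of_not_mem hi hR)
      rw [h1, Finset.sum_comm]
      exact Finset.sum_congr rfl fun a _ => (Finset.mul_sum _ _ _).symm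
    refine ⟨C, fun i hi => ?_, fun R => ?_, ?_⟩
    · have h1 : i ≠ j := fun h => hi (Finset.mem_insert.2 (Or.inl h))
      have h2 : i ∉ U := fun h => hi (Finset.mem_insert.2 (Or.inr h))
      change (if i = j then _ else _) = (0 : ℝ)
      rw [if_neg h1]
      refine Finset.sum_eq_zero fun a ha => ?_
      rw [(hc a ha).1 i h2, mul_zero]
    · by_cases hR : j ∈ R
      · rw [← Finset.add_sum_erase R C hR, hCj, hCi _ (Finset.notMem_erase j R),
          ← Finset.sum_add_distrib]
        have h2 : ∑ a ∈ V, (w a * (-Real.log (w a)) + w a * ∑ i ∈ R.erase j, c a i) ≤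
            ∑ a ∈ V, w a * Real.log ((((fib A j a).image (cut (R.erase j))).card : ℝ) / w a) := by
          refine Finset.sum_le_sum fun a ha => ?_
          have h3 := (hc a ha).2.1 (R.erase j)
          have h4 := cut_le (fib A j a) (R.erase j) (fib_pos A j a ha)
          rw [Real.log_div h4.ne' (hw a ha).ne', ← mul_add]
          refine mul_le_mul_of_nonneg_left ?_ (hw a ha).le
          linarith
        have h5 := h ℕ V w (fun a => (((fib A j a).image (cut (R.erase j))).card : ℝ)) hw
          (fun a ha => cut_le (fib A j a) (R.erase j) (fib_pos A j a ha)) hw1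
        refine (h2.trans h5).trans ?_
        have hVne : V.Nonempty := hA.image _
        have h6 : (0 : ℝ) < ∑ a ∈ V, (((fib A j a).image (cut (R.erase j))).card : ℝ) :=
          Finset.sum_pos (fun a ha => cut_le (fib A j a) (R.erase j) (fib_pos A j a ha)) hVne
        refine Real.log_le_log h6 ?_
        exact_mod_cast fib_cut_card A j R hR
      · rw [hCi R hR]
        have h2 : ∑ a ∈ V, w a * ∑ i ∈ R, c a i ≤
            ∑ a ∈ V, w a * Real.log ((A.image (cut R)).card) := by
          refine Finset.sum_le_sum fun a ha => ?_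
          refine mul_le_mul_of_nonneg_left ?_ (hw a ha).le
          refine ((hc a ha).2.1 R).trans ?_
          refine Real.log_le_log (cut_le (fib A j a) R (fib_pos A j a ha)) ?_
          exact_mod_cast Finset.card_le_card (fib_cut_sub A j a R hR)
        refine h2.trans ?_
        rw [← Finset.sum_mul, hw1, one_mul]
    · rw [Finset.sum_insert hj, hCj, hCi U hj, ← Finset.sum_add_distrib]
      have h2 : ∀ a ∈ V, w a * (-Real.log (w a)) + w a * ∑ i ∈ U, c a i =
          w a * Real.log A.card := by
        intro a ha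
        rw [(hc a ha).2.2]
        have h3 : Real.log (w a) = Real.log (fib A j a).card - Real.log A.card :=
          Real.log_div (hfp a ha).ne' hcA.ne'
        rw [h3]
        ring
      rw [Finset.sum_congr rfl h2, ← Finset.sum_mul, hw1, one_mul]

end BOXx

open BOXx in
theorem t_BOX (h : S_LSI) : S_BOX := by
  intro d A hA
  obtain ⟨c, -, h2, h3⟩ := main h Finset.univ A hA (fun x _ i hi => absurd (Finset.mem_univ i) hi)
  refine ⟨c, fun i => ?_, h2, h3⟩
  have h4 := h2 (Finset.univ.erase i)
  have h5 : Real.log ((A.image (cut (Finset.univ.erase i))).card) ≤ Real.log A.card := by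
    refine Real.log_le_log (cut_le A _ hA) ?_
    exact_mod_cast Finset.card_image_le
  have h6 := Finset.add_sum_erase Finset.univ c (Finset.mem_univ i)
  linarith

end Pool.Agent.DSX
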