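import Pool.Agent.DSX.Stm

/-!
# Piece COV (helper52)
-/

set_option autoImplicit false

namespace Pool.Agent.DSX

open Finset Pointwise

namespace COVx

theorem mem_box {d : ℕ} (S : Finset (Fin d)) (n : Fin d → ℕ) (u : Fin d → ℕ) :
    u ∈ box S n ↔ ∀ i, u i < if i ∈ S then n i else 1 := by
  unfold box
  rw [Fintype.mem_piFinset]
  exact forall_congr' fun i => Finset.mem_range

theorem card_box {d : ℕ} (S : Finset (Fin d)) (n : Fin d → ℕ) :
    (box S n).card = ∏ i ∈ S, n i := by
  unfold box
  rw [Fintype.card_piFinset]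
  simp only [Finset.card_range]
  rw [Finset.prod_ite_mem, Finset.univ_inter]

theorem close {d : ℕ} (S : Finset (Fin d)) (n : Fin d → ℕ) (x t u u' : Fin d → ℕ)
    (hu : u ∈ box S n) (hu' : u' ∈ box S n) (h : x + u = t + u') :
    (∀ i ∈ S, |(x i : ℤ) - t i| < n i) ∧ ∀ i, i ∉ S → x i = t i := by
  rw [mem_box] at hu hu'
  refine ⟨fun i hi => ?_, fun i hi => ?_⟩
  · have h1 := hu i
    have h2 := hu' i
    rw [if_pos hi] at h1 h2
    have h3 : x i + u i = t i + u' i := congrFun h i
    rw [abs_lt]
    constructor <;> omega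
  · have h1 := hu i
    have h2 := hu' i
    rw [if_neg hi] at h1 h2
    have h3 : x i + u i = t i + u' i := congrFun h i
    omega

end COVx

open COVx in
theorem t_COV : S_COV := by
  classical
  intro d P S n hn
  let good : Finset (Fin d → ℕ) → Prop := fun X => ∀ s ∈ X, ∀ t ∈ X, ∀ u ∈ box S n,
    ∀ u' ∈ box S n, s + u = t + u' → s = t
  have hne : (P.powerset.filter good).Nonempty :=
    ⟨∅, Finset.mem_filter.2 ⟨Finset.empty_mem_powerset _,
      fun s hs => absurd hs (Finset.notMem_empty _)⟩⟩
  obtain ⟨X, hX, hmax⟩ := Finset.exists_max_image _ Finset.card hne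
  rw [Finset.mem_filter, Finset.mem_powerset] at hX
  obtain ⟨hXP, hXg⟩ := hX
  refine ⟨X, ?_, fun x hx => ?_⟩
  · rw [← card_box S n, ← Finset.card_product]
    apply Finset.card_le_card_of_injOn (fun q => q.1 + q.2)
    · intro q hq
      have hq' := Finset.mem_product.1 hq
      exact Finset.add_mem_add (hXP hq'.1) hq'.2
    · intro q hq q' hq' h
      have g := Finset.mem_product.1 hq
      have g' := Finset.mem_product.1 hq'
      have h' : q.1 + q.2 = q'.1 + q'.2 := h
      have h1 : q.1 = q'.1 := hXg _ g.1 _ g'.1 _ g.2 _ g'.2 h'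
      rw [h1] at h'
      exact Prod.ext h1 (add_left_cancel h')
  · by_cases hxX : x ∈ X
    · refine ⟨x, hxX, fun i _ => ?_, fun i _ => rfl⟩
      rw [sub_self, abs_zero]
      exact_mod_cast hn i
    · by_contra hcon
      have hgood : good (insert x X) := by
        intro s hs t ht u hu u' hu' h
        rcases Finset.mem_insert.1 hs with hs1 | hs1
        · rcases Finset.mem_insert.1 ht with ht1 | ht1
          · rw [hs1, ht1]
          · rw [hs1] at h
            exact absurd ⟨t, ht1, close S n x t u u' hu hu' h⟩ hcon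
        · rcases Finset.mem_insert.1 ht with ht1 | ht1
          · rw [ht1] at h
            exact absurd ⟨s, hs1, close S n x s u' u hu' hu h.symm⟩ hcon
          · exact hXg s hs1 t ht1 u hu u' hu' h
      have h1 := hmax (insert x X) (Finset.mem_filter.2 ⟨Finset.mem_powerset.2
        (Finset.insert_subset hx hXP), hgood⟩)
      rw [Finset.card_insert_of_notMem hxX] at h1
      omega

end Pool.Agent.DSX
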