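import Pool.Agent.DSX.Stm

/-!
# DSX-DBL (helper14)
-/

set_option autoImplicit false

namespace Pool.Agent.DSX.DBLaux

open Finset Pointwise

theorem plu (d : ℕ) (A : Finset (Fin d → ℕ)) (K : ℝ) (hA : A.Nonempty)
    (hK : ((A + A).card : ℝ) ≤ K * A.card) : ((A + A + A).card : ℝ) ≤ K ^ 3 * A.card := by
  classical
  let f : (Fin d → ℕ) →+ (Fin d → ℤ) := (Nat.castAddMonoidHom ℤ).compLeft (Fin d)
  have hf : Function.Injective f := by
    intro x y h
    funext i
    have h1 := congrFun h i
    exact Nat.cast_injective (R := ℤ) h1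
  have c1 : (A.image f).card = A.card := card_image_of_injective _ hf
  have c2 : (A.image f + A.image f).card = (A + A).card := by
    rw [← image_add f, card_image_of_injective _ hf]
  have c3 : (3 • A.image f).card = (A + A + A).card := by
    have e : 3 • A.image f = A.image f + A.image f + A.image f := by
      rw [succ_nsmul, succ_nsmul, one_nsmul]
    rw [e, ← image_add f, ← image_add f, card_image_of_injective _ hf]
  have h := pluennecke_ruzsa_inequality_nsmul_add (hA.image f) (A.image f) 3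
  rw [c1, c2, c3] at h
  have h' : (((A + A + A).card : ℚ≥0) : ℝ) ≤
      ((((A + A).card / A.card : ℚ≥0) ^ 3 * A.card : ℚ≥0) : ℝ) := by exact_mod_cast h
  push_cast at h'
  have hA0 : (0 : ℝ) < A.card := by exact_mod_cast hA.card_pos
  have h2 : ((A + A).card : ℝ) / A.card ≤ K := (div_le_iff₀ hA0).2 hK
  refine h'.trans ?_
  refine mul_le_mul_of_nonneg_right ?_ hA0.le
  exact pow_le_pow_left₀ (by positivity) h2 3

theorem sec_zero {d : ℕ} {A : Finset (Fin d → ℕ)} {R : Finset (Fin d)} {x : Fin d → ℕ}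
    (hx : x ∈ sec A R) {i : Fin d} (hi : i ∉ R) : x i = 0 := by
  by_contra h
  exact hi ((mem_filter.1 hx).2 (mem_filter.2 ⟨mem_univ i, h⟩))

theorem inj (d : ℕ) (A : Finset (Fin d → ℕ)) (R : Finset (Fin d)) :
    (sec A R + sec A R).card * (sec A Rᶜ).card ≤ (A + A + A).card := by
  classical
  rw [← card_product]
  refine card_le_card_of_injOn (fun p => p.1 + p.2) ?_ ?_
  · intro p hp
    have hp' := mem_product.1 (mem_coe.1 hp)
    obtain ⟨b1, hb1, b2, hb2, hb⟩ := mem_add.1 hp'.1
    have e : (fun p : (Fin d → ℕ) × (Fin d → ℕ) => p.1 + p.2) p = b1 + b2 + p.2 := by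
      change p.1 + p.2 = _
      rw [← hb]
    rw [e]
    exact mem_coe.2 (add_mem_add (add_mem_add (mem_filter.1 hb1).1 (mem_filter.1 hb2).1)
      (mem_filter.1 hp'.2).1)
  · intro p hp q hq hpq
    have hp' := mem_product.1 (mem_coe.1 hp)
    have hq' := mem_product.1 (mem_coe.1 hq)
    obtain ⟨b1, hb1, b2, hb2, hb⟩ := mem_add.1 hp'.1
    obtain ⟨c1, hc1, c2, hc2, hc⟩ := mem_add.1 hq'.1
    have key : ∀ i, p.1 i = q.1 i ∧ p.2 i = q.2 i := by
      intro i
      have h1 : p.1 i + p.2 i = q.1 i + q.2 i := congrFun hpq i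
      by_cases hi : i ∈ R
      · have hi' : i ∉ Rᶜ := fun h => (mem_compl.1 h) hi
        have h2 := sec_zero hp'.2 hi'
        have h3 := sec_zero hq'.2 hi'
        omega
      · have h2 : p.1 i = 0 := by
          rw [← hb, Pi.add_apply, sec_zero hb1 hi, sec_zero hb2 hi]
        have h3 : q.1 i = 0 := by
          rw [← hc, Pi.add_apply, sec_zero hc1 hi, sec_zero hc2 hi]
        omega
    exact Prod.ext (funext fun i => (key i).1) (funext fun i => (key i).2)

end Pool.Agent.DSX.DBLaux

namespace Pool.Agent.DSX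

open Finset Pointwise

theorem t_DBL (h : S_SEC) : S_DBL := by
  intro d A K hD hA hK R
  have hA0 : (0 : ℝ) < A.card := by exact_mod_cast hA.card_pos
  have hK0 : 0 ≤ K := by
    by_contra hneg
    push Not at hneg
    have h1 : K * (A.card : ℝ) < 0 := mul_neg_of_neg_of_pos hneg hA0
    have h2 : (0 : ℝ) ≤ ((A + A).card : ℝ) := Nat.cast_nonneg _
    linarith
  have h1 : A.card ≤ (sec A R).card * (sec A Rᶜ).card := (h d A hD).2.2.1 R
  have h1' : (A.card : ℝ) ≤ (sec A R).card * (sec A Rᶜ).card := by exact_mod_cast h1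
  have hC : (0 : ℝ) < (sec A Rᶜ).card := by
    have h2 : 0 < (sec A Rᶜ).card := by
      rcases Nat.eq_zero_or_pos (sec A Rᶜ).card with h3 | h3
      · rw [h3, Nat.mul_zero] at h1
        have := hA.card_pos
        omega
      · exact h3
    exact_mod_cast h2
  have h2 : ((sec A R + sec A R).card : ℝ) * (sec A Rᶜ).card ≤ (A + A + A).card := by
    exact_mod_cast DBLaux.inj d A R
  have h3 := DBLaux.plu d A K hA hK
  have h4 : K ^ 3 * (A.card : ℝ) ≤ K ^ 3 * ((sec A R).card * (sec A Rᶜ).card) :=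
    mul_le_mul_of_nonneg_left h1' (pow_nonneg hK0 3)
  have h5 : ((sec A R + sec A R).card : ℝ) * (sec A Rᶜ).card ≤
      (K ^ 3 * (sec A R).card) * (sec A Rᶜ).card := by
    calc _ ≤ ((A + A + A).card : ℝ) := h2
      _ ≤ K ^ 3 * A.card := h3
      _ ≤ K ^ 3 * ((sec A R).card * (sec A Rᶜ).card) := h4
      _ = _ := by ring
  exact le_of_mul_le_mul_right h5 hC

end Pool.Agent.DSX
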