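import Pool.Agent.DSX.Stm

set_option autoImplicit false

namespace Pool.Agent.DSX

open Finset

theorem t_JEN : S_JEN := by
  intro α A g hA hg
  have hc : (0 : ℝ) < A.card := by exact_mod_cast hA.card_pos
  have hs : 0 < ∑ x ∈ A, g x := Finset.sum_pos hg hA
  set m : ℝ := (∑ x ∈ A, g x) / A.card with hm
  have hm0 : 0 < m := div_pos hs hc
  have h1 : ∀ x ∈ A, Real.log (g x) ≤ Real.log m + (g x / m - 1) := by
    intro x hx
    have h2 := Real.log_le_sub_one_of_pos (div_pos (hg x hx) hm0)
    rw [Real.log_div (hg x hx).ne' hm0.ne'] at h2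
    linarith
  calc ∑ x ∈ A, Real.log (g x) ≤ ∑ x ∈ A, (Real.log m + (g x / m - 1)) := Finset.sum_le_sum h1
    _ = A.card * Real.log m + ((∑ x ∈ A, g x) / m - A.card) := by
        rw [Finset.sum_add_distrib, Finset.sum_sub_distrib, Finset.sum_const, Finset.sum_const, ← Finset.sum_div,
          nsmul_eq_mul, nsmul_eq_mul, mul_one]
    _ = A.card * Real.log m := by
        have : (∑ x ∈ A, g x) / m = A.card := by
          rw [hm]
          field_simp
        rw [this, sub_self, add_zero]

end Pool.Agent.DSX
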