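import Pool.Agent.DSX.Stm

/-!
# Project DSX, piece LSI
-/

set_option autoImplicit false

namespace Pool.Agent.DSX

theorem t_LSI : S_LSI := by
  intro α A w g hw hg h1
  have h := strictConcaveOn_log_Ioi.concaveOn.le_map_sum (t := A) (w := w) (p := fun x => g x / w x)
    (fun x hx => (hw x hx).le) h1 (fun x hx => div_pos (hg x hx) (hw x hx))
  simp only [smul_eq_mul] at h
  have h2 : ∑ x ∈ A, w x * (g x / w x) = ∑ x ∈ A, g x :=
    Finset.sum_congr rfl fun x hx => mul_div_cancel₀ _ (hw x hx).ne'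
  rwa [h2] at h

end Pool.Agent.DSX
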