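import Pool.Agent.DSX.Stm

/-!
# Project DSX, piece MAIN
-/

set_option autoImplicit false

namespace Pool.Agent.DSX

open Finset Pointwise

theorem t_MAIN (h1 : S_SML) (h2 : S_SEC) (h3 : S_DBL) (h4 : S_PBX) (h5 : S_THR) : S_MAIN := by
  classical
  intro d A K hA hne hK hdb
  obtain ⟨S, hS, hc⟩ := h1 d A K hA hne hK hdb
  obtain ⟨hsd, hsc, -, -⟩ := h2 d A hA
  have hPne : (sec A S).Nonempty := by
    rw [hsc]
    exact hne.image _
  obtain ⟨n, X, hn, hprod, hX, hcov⟩ := h4 d (sec A S) S (K ^ 3) (hsd S) hPne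
    (fun x hx => (mem_filter.1 hx).2) (h3 d A K hA hne hdb S)
  obtain ⟨Y, hY, hcovY⟩ := h5 d S n hn
  have hK0 : 0 < K := lt_of_lt_of_le one_pos hK
  have h2S : (2 : ℝ) ^ S.card ≤ K ^ 2 := by
    have h6 : Real.log ((2 : ℝ) ^ S.card) ≤ Real.log (K ^ 2) := by
      rw [Real.log_pow, Real.log_pow]
      exact_mod_cast hS
    exact (Real.log_le_log_iff (by positivity) (by positivity)).1 h6
  refine ⟨S, fun i => (n i - 1) / 2,
    (sec A Sᶜ ×ˢ (X ×ˢ Y)).image fun p => fun i => (p.1 i : ℤ) + p.2.1 i + p.2.2 i, hS, ?_, ?_, ?_⟩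
  · calc ∏ i ∈ S, (2 * ((n i - 1) / 2) + 1) ≤ ∏ i ∈ S, n i := Finset.prod_le_prod' fun i _ => by
          have := hn i
          omega
      _ ≤ (sec A S).card := hprod
      _ ≤ A.card := card_filter_le _ _
  · have h7 : (((sec A Sᶜ ×ˢ (X ×ˢ Y)).image fun p => fun i => (p.1 i : ℤ) + p.2.1 i + p.2.2 i).card : ℝ) ≤
        (sec A Sᶜ).card * (X.card * Y.card) := by
      have h := card_image_le (s := sec A Sᶜ ×ˢ (X ×ˢ Y))
        (f := fun p => fun i => (p.1 i : ℤ) + p.2.1 i + p.2.2 i)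
      rw [card_product, card_product] at h
      exact_mod_cast h
    have h8 : (Y.card : ℝ) ≤ 3 ^ S.card := by exact_mod_cast hY
    have h9 : (4 : ℝ) ^ S.card = (2 ^ S.card) ^ 2 := by
      rw [← pow_mul, mul_comm, pow_mul]
      norm_num
    have h10 : (3 : ℝ) ^ S.card ≤ 4 ^ S.card := pow_le_pow_left₀ (by norm_num) (by norm_num) _
    calc _ ≤ ((sec A Sᶜ).card : ℝ) * (X.card * Y.card) := h7
      _ ≤ K ^ 10 * ((4 ^ S.card * K ^ 3) * 4 ^ S.card) := by
          have h11 := h8.trans h10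
          gcongr
      _ = K ^ 13 * (2 ^ S.card) ^ 4 := by
          rw [h9]
          ring
      _ ≤ K ^ 13 * (K ^ 2) ^ 4 := by gcongr
      _ = K ^ 21 := by ring
  · intro x hx
    have hp : cut S x ∈ sec A S := by
      rw [hsc]
      exact mem_image_of_mem _ hx
    have hs : cut Sᶜ x ∈ sec A Sᶜ := by
      rw [hsc]
      exact mem_image_of_mem _ hx
    obtain ⟨t, ht, ht1, ht2⟩ := hcov _ hp
    obtain ⟨y, hy, hy1, hy2⟩ := hcovY (fun i => (cut S x i : ℤ) - t i) ht1
      (fun i hi => by rw [ht2 i hi, sub_self])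
    refine ⟨fun i => (cut Sᶜ x i : ℤ) + t i + y i, mem_image.2 ⟨(cut Sᶜ x, t, y),
      mem_product.2 ⟨hs, mem_product.2 ⟨ht, hy⟩⟩, rfl⟩, fun i hi => ?_, fun i hi => ?_⟩
    · have h9 : cut Sᶜ x i = 0 := by
        unfold cut
        rw [if_neg (fun h => (mem_compl.1 h) hi)]
      have h10 : cut S x i = x i := by
        unfold cut
        rw [if_pos hi]
      have h11 := hy1 i hi
      simp only [h10] at h11
      simp only [h9]
      rw [show (x i : ℤ) - (((0 : ℕ) : ℤ) + (t i : ℤ) + y i) = (x i : ℤ) - t i - y i by push_cast; ring]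
      exact h11
    · have h9 : cut Sᶜ x i = x i := by
        unfold cut
        rw [if_pos (mem_compl.2 hi)]
      have h10 : cut S x i = 0 := by
        unfold cut
        rw [if_neg hi]
      have h11 := ht2 i hi
      have h12 := hy2 i hi
      simp only [h9, h12]
      rw [← h11, h10]
      push_cast
      ring

end Pool.Agent.DSX
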