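import Pool.Agent.DSX.Stm
/-!
# Project DSX, piece PBX
-/
set_option autoImplicit false
namespace Pool.Agent.DSX
open Finset Pointwise

theorem t_PBX (h1 : S_BOX) (h2 : S_SEC) (h3 : S_SMB) (h4 : S_COV) : S_PBX := by
  intro d P S K hP hne hS hK
  obtain ⟨c, hc0, hcR, hcP⟩ := h1 d P hne
  obtain ⟨-, hsec, -, hdis⟩ := h2 d P hP
  have hPpos : (0 : ℝ) < P.card := by exact_mod_cast hne.card_pos
  obtain ⟨n, hn⟩ : ∃ n : Fin d → ℕ, ∀ i, n i = ⌊Real.exp (c i)⌋₊ := ⟨_, fun _ => rfl⟩
  have hn1 : ∀ i, 1 ≤ n i := by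
    intro i
    rw [hn, Nat.one_le_floor_iff]
    exact Real.one_le_exp (hc0 i)
  have hnle : ∀ i, (n i : ℝ) ≤ Real.exp (c i) := fun i => by
    rw [hn]
    exact Nat.floor_le (Real.exp_pos _).le
  have hnge : ∀ i, Real.exp (c i) ≤ 2 * n i := fun i => by
    have a1 : Real.exp (c i) < n i + 1 := by
      rw [hn]
      exact Nat.lt_floor_add_one _
    have a2 : (1 : ℝ) ≤ n i := by exact_mod_cast hn1 i
    linarith
  have hprod : ∀ R : Finset (Fin d), ∏ i ∈ R, n i ≤ (sec P R).card := by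
    intro R
    have a1 : ((∏ i ∈ R, n i : ℕ) : ℝ) ≤ (sec P R).card := by
      rw [hsec R]
      push_cast
      calc ∏ i ∈ R, (n i : ℝ) ≤ ∏ i ∈ R, Real.exp (c i) :=
            Finset.prod_le_prod (fun i _ => by positivity) (fun i _ => hnle i)
        _ = Real.exp (∑ i ∈ R, c i) := (Real.exp_sum R c).symm
        _ ≤ Real.exp (Real.log ((P.image (cut R)).card)) := Real.exp_le_exp.2 (hcR R)
        _ = (P.image (cut R)).card := Real.exp_log (by exact_mod_cast (hne.image _).card_pos)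
    exact_mod_cast a1
  have hcz : ∀ i, i ∉ S → c i = 0 := by
    intro i hi
    have a1 := hcR {i}
    rw [sum_singleton] at a1
    have a2 : P.image (cut {i}) ⊆ {0} := by
      intro y hy
      obtain ⟨x, hx, rfl⟩ := mem_image.1 hy
      rw [mem_singleton]
      funext j
      unfold cut
      by_cases hj : j ∈ ({i} : Finset (Fin d))
      · rw [if_pos hj]
        rw [mem_singleton] at hj
        subst hj
        by_contra h
        exact hi (hS x hx (mem_filter.2 ⟨mem_univ _, h⟩))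
      · rw [if_neg hj]
        rfl
    have a3 : (P.image (cut {i})).card ≤ 1 := by simpa using card_le_card a2
    have a4 : Real.log ((P.image (cut {i})).card) ≤ 0 :=
      Real.log_nonpos (by positivity) (by exact_mod_cast a3)
    linarith [hc0 i]
  have hsum : ∑ i ∈ S, c i = Real.log P.card := by
    rw [← hcP]
    exact sum_subset (subset_univ S) fun i _ hi => hcz i hi
  have hlow : (P.card : ℝ) ≤ 2 ^ S.card * ∏ i ∈ S, (n i : ℝ) := by
    calc (P.card : ℝ) = Real.exp (∑ i ∈ S, c i) := by rw [hsum, Real.exp_log hPpos]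
      _ = ∏ i ∈ S, Real.exp (c i) := Real.exp_sum S c
      _ ≤ ∏ i ∈ S, (2 * (n i : ℝ)) :=
        prod_le_prod (fun i _ => (Real.exp_pos _).le) fun i _ => hnge i
      _ = 2 ^ S.card * ∏ i ∈ S, (n i : ℝ) := by rw [prod_mul_distrib, prod_const]
  have hbox : (P + box S n).card ≤ 2 ^ S.card * (P + P).card := by
    refine (h3 d P S n hP hS hn1).trans ?_
    calc ∑ R ∈ S.powerset, (∏ i ∈ R, n i) * (sec P (S \ R)).card
        ≤ ∑ R ∈ S.powerset, (P + P).card := sum_le_sum fun R _ =>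
          (Nat.mul_le_mul_right _ (hprod R)).trans (hdis R (S \ R) disjoint_sdiff)
      _ = 2 ^ S.card * (P + P).card := by rw [sum_const, card_powerset, smul_eq_mul]
  obtain ⟨X, hX, hcov⟩ := h4 d P S n hn1
  refine ⟨n, X, hn1, (hprod S).trans (card_le_card (filter_subset _ _)), ?_, hcov⟩
  have hpp : (0 : ℝ) < ∏ i ∈ S, (n i : ℝ) := prod_pos fun i _ => by exact_mod_cast hn1 i
  have hK0 : 0 ≤ K := by
    by_contra hneg
    have b1 : K * P.card < 0 := mul_neg_of_neg_of_pos (not_le.1 hneg) hPpos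
    have b2 : (0 : ℝ) ≤ (P + P).card := by positivity
    linarith
  have a1 : (X.card : ℝ) * ∏ i ∈ S, (n i : ℝ) ≤ 2 ^ S.card * (P + P).card := by
    exact_mod_cast hX.trans hbox
  have a2 : (2 : ℝ) ^ S.card * (P + P).card ≤ 2 ^ S.card * (K * P.card) :=
    mul_le_mul_of_nonneg_left hK (by positivity)
  have a3 : (2 : ℝ) ^ S.card * (K * P.card) ≤
      2 ^ S.card * (K * (2 ^ S.card * ∏ i ∈ S, (n i : ℝ))) :=
    mul_le_mul_of_nonneg_left (mul_le_mul_of_nonneg_left hlow hK0) (by positivity)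
  have a4 : (2 : ℝ) ^ S.card * (K * (2 ^ S.card * ∏ i ∈ S, (n i : ℝ))) =
      (4 ^ S.card * K) * ∏ i ∈ S, (n i : ℝ) := by
    have e : (4 : ℝ) ^ S.card = 2 ^ S.card * 2 ^ S.card := by rw [← mul_pow]; norm_num
    rw [e]
    ring
  exact le_of_mul_le_mul_right (a1.trans (a2.trans (a3.trans a4.le))) hpp

end Pool.Agent.DSX
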