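import Pool.Agent.DSX.Stm

/-! # DSX-PRS (helper73) -/

set_option autoImplicit false
namespace Pool.Agent.DSX
open Finset Pointwise

namespace PRS

theorem mem_supp {d : ℕ} {x : Fin d → ℕ} {i : Fin d} : i ∈ supp x ↔ x i ≠ 0 := by
  simp [supp]

theorem mem_sec {d : ℕ} {A : Finset (Fin d → ℕ)} {R : Finset (Fin d)} {x : Fin d → ℕ} :
    x ∈ sec A R ↔ x ∈ A ∧ supp x ⊆ R := by
  simp [sec]

end PRS

open PRS in
theorem t_PRS : S_PRS := by
  intro d A T _
  classical
  have hf : ∀ p ∈ A.sigma (fun x => sec A (T \ supp x)), p.1 + p.2 ∈ A + A := by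
    intro p hp
    rw [mem_sigma] at hp
    exact add_mem_add hp.1 (mem_sec.1 hp.2).1
  rw [Finset.sum_sigma', ← Finset.sum_fiberwise_of_maps_to hf]
  have h1 : ((A + A).card : ℝ) = ∑ z ∈ A + A, (1 : ℝ) := by simp
  rw [h1]
  refine Finset.sum_le_sum fun z _ => ?_
  -- the facts about a pair over `z`
  have key : ∀ p ∈ (A.sigma (fun x => sec A (T \ supp x))).filter (fun p => p.1 + p.2 = z),
      (∀ i, i ∈ supp p.2 → i ∈ T ∧ p.1 i = 0) ∧ p.1 + p.2 = z := by
    intro p hp
    rw [mem_filter, mem_sigma] at hp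
    refine ⟨fun i hi => ?_, hp.2⟩
    have h2 := (mem_sec.1 hp.1.2).2 hi
    rw [mem_sdiff, mem_supp, not_not] at h2
    exact h2
  have hw : ∀ p ∈ (A.sigma (fun x => sec A (T \ supp x))).filter (fun p => p.1 + p.2 = z),
      (1 / 2 : ℝ) ^ ((supp p.1 ∩ T).card + (supp p.2).card) = (1 / 2 : ℝ) ^ (supp z ∩ T).card := by
    intro p hp
    obtain ⟨h2, h3⟩ := key p hp
    have h4 : supp z ∩ T = (supp p.1 ∩ T) ∪ supp p.2 := by
      ext i
      rw [mem_inter, mem_union, mem_inter, mem_supp, mem_supp, ← h3, Pi.add_apply]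
      constructor
      · rintro ⟨h5, h6⟩
        by_cases h7 : p.1 i = 0
        · right
          rw [mem_supp]
          omega
        · exact Or.inl ⟨h7, h6⟩
      · rintro (⟨h5, h6⟩ | h5)
        · exact ⟨by omega, h6⟩
        · exact ⟨by have := mem_supp.1 h5; omega, (h2 i h5).1⟩
    have h5 : Disjoint (supp p.1 ∩ T) (supp p.2) := by
      rw [disjoint_left]
      intro i hi hi'
      exact (mem_supp.1 (mem_inter.1 hi).1) (h2 i hi').2
    rw [h4, card_union_of_disjoint h5]
  rw [Finset.sum_congr rfl hw, Finset.sum_const, nsmul_eq_mul]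
  have hc : ((A.sigma (fun x => sec A (T \ supp x))).filter (fun p => p.1 + p.2 = z)).card ≤
      2 ^ (supp z ∩ T).card := by
    rw [← card_powerset]
    refine card_le_card_of_injOn (fun p => supp p.2) ?_ ?_
    · intro p hp
      obtain ⟨h2, h3⟩ := key p hp
      rw [mem_coe, mem_powerset]
      intro i hi
      rw [mem_inter, mem_supp, ← h3, Pi.add_apply]
      exact ⟨by have := mem_supp.1 hi; omega, (h2 i hi).1⟩
    · intro p hp q hq hpq
      obtain ⟨h2, h3⟩ := key p hp
      obtain ⟨h4, h5⟩ := key q hq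
      have hpq' : supp p.2 = supp q.2 := hpq
      have h6 : p.2 = q.2 := by
        funext i
        by_cases hi : i ∈ supp p.2
        · have e1 : p.1 i + p.2 i = z i := congrFun h3 i
          have e2 : q.1 i + q.2 i = z i := congrFun h5 i
          have e3 := (h2 i hi).2
          have e4 := (h4 i (hpq' ▸ hi)).2
          omega
        · have e1 : p.2 i = 0 := by
            by_contra h
            exact hi (mem_supp.2 h)
          have e2 : q.2 i = 0 := by
            by_contra h
            exact hi (hpq' ▸ mem_supp.2 h)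
          rw [e1, e2]
      have h7 : p.1 = q.1 := by
        funext i
        have e1 : p.1 i + p.2 i = z i := congrFun h3 i
        have e2 : q.1 i + q.2 i = z i := congrFun h5 i
        have e3 : p.2 i = q.2 i := congrFun h6 i
        omega
      obtain ⟨p1, p2⟩ := p
      obtain ⟨q1, q2⟩ := q
      simp only at h6 h7
      subst h6
      subst h7
      rfl
  have hc' : (((A.sigma (fun x => sec A (T \ supp x))).filter (fun p => p.1 + p.2 = z)).card : ℝ) ≤
      2 ^ (supp z ∩ T).card := by exact_mod_cast hc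
  calc _ ≤ (2 : ℝ) ^ (supp z ∩ T).card * (1 / 2 : ℝ) ^ (supp z ∩ T).card :=
        mul_le_mul_of_nonneg_right hc' (by positivity)
    _ = 1 := by rw [← mul_pow]; norm_num

end Pool.Agent.DSX
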