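import Pool.Agent.DSX.Stm

/-! Project DSX, piece SEC (helper9): sections of down-sets. -/

set_option autoImplicit false

namespace Pool.Agent.DSX

open Finset Pointwise

namespace SECaux

variable {d : ℕ} {A : Finset (Fin d → ℕ)} {R : Finset (Fin d)} {x : Fin d → ℕ}

theorem mem_sec : x ∈ sec A R ↔ x ∈ A ∧ ∀ i, x i ≠ 0 → i ∈ R := by
  simp [sec, supp, Finset.subset_iff]

theorem cut_le (R : Finset (Fin d)) (x : Fin d → ℕ) : cut R x ≤ x := by
  intro i
  unfold cut
  split_ifs
  · exact le_rfl
  · exact Nat.zero_le _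

theorem cut_mem (hA : Down A) (R : Finset (Fin d)) (hx : x ∈ A) : cut R x ∈ sec A R := by
  rw [mem_sec]
  refine ⟨hA x hx _ (cut_le R x), fun i hi => ?_⟩
  by_contra h
  exact hi (if_neg h)

theorem cut_eq (h : ∀ i, x i ≠ 0 → i ∈ R) : cut R x = x := by
  funext i
  unfold cut
  split_ifs with h1
  · rfl
  · by_contra h2
    exact h1 (h i fun h3 => h2 h3.symm)

end SECaux

open SECaux in
theorem t_SEC : S_SEC := by
  intro d A hA
  refine ⟨?_, ?_, ?_, ?_⟩
  · intro R x hx y hy
    rw [mem_sec] at hx ⊢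
    refine ⟨hA x hx.1 y hy, fun i hi => hx.2 i fun h => hi ?_⟩
    have h1 : y i ≤ x i := hy i
    rw [h] at h1
    exact Nat.le_zero.1 h1
  · intro R
    ext x
    rw [mem_image]
    constructor
    · intro hx
      have h := mem_sec.1 hx
      exact ⟨x, h.1, cut_eq h.2⟩
    · rintro ⟨y, hy, rfl⟩
      exact cut_mem hA R hy
  · intro R
    rw [← card_product]
    refine card_le_card_of_injOn (fun x => (cut R x, cut Rᶜ x)) ?_ ?_
    · intro x hx
      exact mem_coe.2 (mem_product.2 ⟨cut_mem hA R hx, cut_mem hA Rᶜ hx⟩)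
    · intro x _ y _ h
      funext i
      have h1 : cut R x i = cut R y i := congrFun (congrArg Prod.fst h) i
      have h2 : cut Rᶜ x i = cut Rᶜ y i := congrFun (congrArg Prod.snd h) i
      unfold cut at h1 h2
      by_cases hi : i ∈ R
      · rwa [if_pos hi, if_pos hi] at h1
      · rwa [if_pos (mem_compl.2 hi), if_pos (mem_compl.2 hi)] at h2
  · intro R R' hR
    rw [← card_product]
    have key : ∀ p ∈ sec A R ×ˢ sec A R', ∀ i, (i ∈ R → (p.1 + p.2) i = p.1 i) ∧
        (i ∉ R → p.1 i = 0) := by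
      intro p hp i
      rw [mem_product, mem_sec, mem_sec] at hp
      refine ⟨fun hi => ?_, fun hi => ?_⟩
      · have h1 : p.2 i = 0 := by
          by_contra h
          exact disjoint_left.1 hR hi (hp.2.2 i h)
        rw [Pi.add_apply, h1, add_zero]
      · by_contra h
        exact hi (hp.1.2 i h)
    refine card_le_card_of_injOn (fun p => p.1 + p.2) ?_ ?_
    · intro p hp
      have hp' := mem_product.1 (mem_coe.1 hp)
      exact mem_coe.2 (add_mem_add (mem_sec.1 hp'.1).1 (mem_sec.1 hp'.2).1)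
    · intro p hp q hq h
      have hp' := key p (mem_coe.1 hp)
      have hq' := key q (mem_coe.1 hq)
      have h0 : p.1 + p.2 = q.1 + q.2 := h
      have h1 : p.1 = q.1 := by
        funext i
        by_cases hi : i ∈ R
        · rw [← (hp' i).1 hi, ← (hq' i).1 hi, h0]
        · rw [(hp' i).2 hi, (hq' i).2 hi]
      have h2 : p.2 = q.2 := by
        rw [h1] at h0
        exact add_left_cancel h0
      exact Prod.ext h1 h2

end Pool.Agent.DSX
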