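import Pool.Agent.DSX.Stm

/-! Piece SMB of the project DSX. -/

set_option autoImplicit false

namespace Pool.Agent.DSX

open Finset Pointwise

theorem t_SMB : S_SMB := by
  classical
  intro d P S n hP hS hn
  let r : (Fin d → ℕ) → Finset (Fin d) := fun z => S.filter fun i => z i < n i
  let w : (Fin d → ℕ) → (Fin d → ℕ) := fun z i => if i ∈ S \ r z then z i - n i else 0
  let f : (Fin d → ℕ) → (Σ _ : Finset (Fin d), (Fin d → ℕ) × (Fin d → ℕ)) :=
    fun z => ⟨r z, (cut (r z) z, w z)⟩
  have hmem : ∀ z ∈ P + box S n, ∃ x ∈ P, ∃ u : Fin d → ℕ,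
      (∀ i, u i < if i ∈ S then n i else 1) ∧ z = x + u := by
    intro z hz
    obtain ⟨x, hx, u, hu, rfl⟩ := Finset.mem_add.1 hz
    refine ⟨x, hx, u, fun i => ?_, rfl⟩
    rw [box, Fintype.mem_piFinset] at hu
    exact Finset.mem_range.1 (hu i)
  have hcard : (S.powerset.sigma fun R => (box R n) ×ˢ sec P (S \ R)).card =
      ∑ R ∈ S.powerset, (∏ i ∈ R, n i) * (sec P (S \ R)).card := by
    rw [Finset.card_sigma]
    refine Finset.sum_congr rfl fun R _ => ?_
    rw [Finset.card_product]
    congr 1
    rw [box, Fintype.card_piFinset]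
    simp only [Finset.card_range]
    rw [Finset.prod_ite_mem, Finset.univ_inter]
  rw [← hcard]
  refine Finset.card_le_card_of_injOn f ?_ ?_
  · intro z hz
    obtain ⟨x, hx, u, hu, rfl⟩ := hmem z hz
    rw [Finset.mem_coe, Finset.mem_sigma]
    refine ⟨Finset.mem_powerset.2 (Finset.filter_subset _ _), ?_⟩
    rw [Finset.mem_product]
    refine ⟨?_, ?_⟩
    · show cut (r (x + u)) (x + u) ∈ box (r (x + u)) n
      rw [box, Fintype.mem_piFinset]
      intro i
      rw [Finset.mem_range]
      unfold cut
      by_cases hi : i ∈ r (x + u)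
      · rw [if_pos hi, if_pos hi]
        exact (Finset.mem_filter.1 hi).2
      · rw [if_neg hi, if_neg hi]
        exact Nat.one_pos
    · show w (x + u) ∈ sec P (S \ r (x + u))
      rw [sec, Finset.mem_filter]
      refine ⟨hP x hx _ fun i => ?_, fun i hi => ?_⟩
      · show (if i ∈ S \ r (x + u) then (x + u) i - n i else 0) ≤ x i
        split_ifs with h
        · have h1 := hu i
          rw [if_pos (Finset.mem_sdiff.1 h).1] at h1
          rw [Pi.add_apply]
          omega
        · exact Nat.zero_le _
      · by_contra hcon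
        refine (Finset.mem_filter.1 hi).2 ?_
        show (if i ∈ S \ r (x + u) then (x + u) i - n i else 0) = 0
        rw [if_neg hcon]
  · intro z hz z' hz' h
    rw [Finset.mem_coe] at hz hz'
    have h1 : r z = r z' := congrArg Sigma.fst h
    have h2 : (cut (r z) z, w z) = (cut (r z') z', w z') := by
      have := congrArg (fun p : (Σ _ : Finset (Fin d), (Fin d → ℕ) × (Fin d → ℕ)) => p.2) h
      exact this
    rw [Prod.mk.injEq] at h2
    obtain ⟨h3, h4⟩ := h2
    have hout : ∀ z ∈ P + box S n, ∀ i, i ∉ S → z i = 0 := by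
      intro z hz i hi
      obtain ⟨x, hx, u, hu, rfl⟩ := hmem z hz
      have h5 := hu i
      rw [if_neg hi] at h5
      have h6 : x i = 0 := by
        by_contra h7
        exact hi (hS x hx (Finset.mem_filter.2 ⟨Finset.mem_univ _, h7⟩))
      rw [Pi.add_apply]
      omega
    funext i
    by_cases hi : i ∈ S
    · by_cases hr : i ∈ r z
      · have h5 := congrFun h3 i
        unfold cut at h5
        rw [if_pos hr, if_pos (h1 ▸ hr)] at h5
        exact h5
      · have h5 : (if i ∈ S \ r z then z i - n i else 0) =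
            if i ∈ S \ r z' then z' i - n i else 0 := congrFun h4 i
        rw [← h1, if_pos (Finset.mem_sdiff.2 ⟨hi, hr⟩), if_pos (Finset.mem_sdiff.2 ⟨hi, hr⟩)] at h5
        have h6 : n i ≤ z i := by
          by_contra h7
          exact hr (Finset.mem_filter.2 ⟨hi, not_le.1 h7⟩)
        have h7 : n i ≤ z' i := by
          by_contra h8
          rw [h1] at hr
          exact hr (Finset.mem_filter.2 ⟨hi, not_le.1 h8⟩)
        omega
    · rw [hout z hz i hi, hout z' hz' i hi]

end Pool.Agent.DSX
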