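import Pool.Agent.DSX.Stm

/-!
# Project DSX, piece SML: the small part
-/

set_option autoImplicit false

namespace Pool.Agent.DSX

open Finset Pointwise

namespace SML

variable {d : ℕ}

theorem mem_supp {x : Fin d → ℕ} {i : Fin d} : i ∈ supp x ↔ x i ≠ 0 := by
  unfold supp
  rw [Finset.mem_filter]
  exact and_iff_right (Finset.mem_univ i)

theorem mem_sec {A : Finset (Fin d → ℕ)} {R : Finset (Fin d)} {x : Fin d → ℕ} :
    x ∈ sec A R ↔ x ∈ A ∧ supp x ⊆ R := by
  unfold sec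
  rw [Finset.mem_filter]

theorem zero_mem {A : Finset (Fin d → ℕ)} (h : Down A) (hne : A.Nonempty) (R : Finset (Fin d)) :
    (0 : Fin d → ℕ) ∈ sec A R := by
  obtain ⟨x, hx⟩ := hne
  refine mem_sec.2 ⟨h x hx 0 (fun i => Nat.zero_le _), fun i hi => ?_⟩
  exact absurd rfl (mem_supp.1 hi)

theorem sec_sec (A : Finset (Fin d → ℕ)) {R T : Finset (Fin d)} (h : R ⊆ T) :
    sec (sec A T) R = sec A R := by
  ext x
  rw [mem_sec, mem_sec, mem_sec]
  exact ⟨fun h1 => ⟨h1.1.1, h1.2⟩, fun h1 => ⟨⟨h1.1, h1.2.trans h⟩, h1.2⟩⟩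

theorem card_supp (x : Fin d → ℕ) : ((supp x).card : ℝ) = ∑ i, if x i ≠ 0 then (1 : ℝ) else 0 := by
  unfold supp
  rw [Finset.card_filter]
  push_cast
  rfl

theorem card_N (A : Finset (Fin d → ℕ)) (i : Fin d) :
    ((A.filter fun x => x i ≠ 0).card : ℝ) = ∑ x ∈ A, if x i ≠ 0 then (1 : ℝ) else 0 := by
  rw [Finset.card_filter]
  push_cast
  rfl

theorem dc1 (A : Finset (Fin d → ℕ)) :
    ∑ x ∈ A, ((supp x).card : ℝ) = ∑ i, ((A.filter fun x => x i ≠ 0).card : ℝ) := by
  rw [Finset.sum_congr rfl fun x _ => card_supp x, Finset.sum_congr rfl fun i _ => card_N A i,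
    Finset.sum_comm]

theorem dc2 (A : Finset (Fin d → ℕ)) (T : Finset (Fin d)) (c : Fin d → ℝ) :
    ∑ x ∈ A, ∑ i ∈ T \ supp x, c i =
      ∑ i ∈ T, c i * ((A.card : ℝ) - ((A.filter fun x => x i ≠ 0).card : ℝ)) := by
  have h : ∀ x ∈ A, ∑ i ∈ T \ supp x, c i = ∑ i ∈ T, (c i - c i * if x i ≠ 0 then (1 : ℝ) else 0) := by
    intro x _
    have e : T \ supp x = T.filter fun i => ¬ x i ≠ 0 := by
      ext i
      rw [Finset.mem_sdiff, Finset.mem_filter, mem_supp]
    rw [e, Finset.sum_filter]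
    refine Finset.sum_congr rfl fun i _ => ?_
    by_cases hx : x i ≠ 0
    · rw [if_neg (not_not.2 hx), if_pos hx]
      ring
    · rw [if_pos hx, if_neg hx]
      ring
  rw [Finset.sum_congr rfl h, Finset.sum_comm]
  refine Finset.sum_congr rfl fun i _ => ?_
  rw [Finset.sum_sub_distrib, Finset.sum_const, ← Finset.mul_sum, ← card_N, nsmul_eq_mul]
  ring

end SML

open SML in
theorem t_SML (h1 : S_JEN) (h2 : S_BOX) (h3 : S_SEC) (h4 : S_DBL) (h5 : S_PRS) (h6 : S_AVG) :
    S_SML := by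
  intro d A K hD hne hK hAK
  have hcA : (0 : ℝ) < A.card := by exact_mod_cast Finset.card_pos.2 hne
  have hK0 : 0 < K := by linarith
  have hlK : 0 ≤ Real.log K := Real.log_nonneg hK
  have hl2 : 0 < Real.log 2 := Real.log_pos (by norm_num)
  have hav := h6 d A K hD hne hAK
  obtain ⟨N, hN⟩ : ∃ N : Fin d → ℝ, ∀ i, N i = ((A.filter fun x => x i ≠ 0).card : ℝ) := ⟨_, fun i => rfl⟩
  have hN0 : ∀ i, 0 ≤ N i := fun i => by
    rw [hN]
    exact Nat.cast_nonneg _
  obtain ⟨S, hS⟩ : ∃ S : Finset (Fin d), ∀ i, i ∈ S ↔ (A.card : ℝ) / 2 ≤ N i := by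
    classical
    exact ⟨Finset.univ.filter fun i => (A.card : ℝ) / 2 ≤ N i, fun i => by simp⟩
  have hdc : ∑ x ∈ A, ((supp x).card : ℝ) = ∑ i, N i := by
    rw [dc1]
    exact Finset.sum_congr rfl fun i _ => (hN i).symm
  refine ⟨S, ?_, ?_⟩
  · have e1 : (S.card : ℝ) * ((A.card : ℝ) / 2) ≤ ∑ i, N i := by
      calc (S.card : ℝ) * ((A.card : ℝ) / 2) = ∑ i ∈ S, (A.card : ℝ) / 2 := by
            rw [Finset.sum_const, nsmul_eq_mul]
        _ ≤ ∑ i ∈ S, N i := Finset.sum_le_sum fun i hi => (hS i).1 hi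
        _ ≤ ∑ i, N i := Finset.sum_le_sum_of_subset_of_nonneg (Finset.subset_univ S) fun i _ _ => hN0 i
    rw [hdc] at hav
    have e2 : (A.card : ℝ) * ((S.card : ℝ) * Real.log 2) ≤ (A.card : ℝ) * (2 * Real.log K) := by
      have := mul_le_mul_of_nonneg_right e1 hl2.le
      nlinarith
    exact le_of_mul_le_mul_left e2 hcA
  obtain ⟨T, hT⟩ : ∃ T, T = Sᶜ := ⟨_, rfl⟩
  rw [← hT]
  obtain ⟨s1, s2, -, -⟩ := h3 d A hD
  -- the function `G`
  obtain ⟨G, hG⟩ : ∃ G : (Fin d → ℕ) → ℝ, ∀ x, G x = ∑ y ∈ sec A (T \ supp x),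
    (1 / 2 : ℝ) ^ ((supp x ∩ T).card + (supp y).card) := ⟨_, fun x => rfl⟩
  have hsne : ∀ R, (sec A R).Nonempty := fun R => ⟨0, zero_mem hD hne R⟩
  have hG0 : ∀ x, 0 < G x := fun x => by
    rw [hG]
    exact Finset.sum_pos (fun y _ => by positivity) (hsne _)
  have hlow : ∀ x, -((supp x).card : ℝ) * Real.log 2 + Real.log ((sec A (T \ supp x)).card) -
      3 * Real.log K ≤ Real.log (G x) := by
    intro x
    obtain ⟨B, hB⟩ : ∃ B, B = sec A (T \ supp x) := ⟨_, rfl⟩
    have hBne : B.Nonempty := by rw [hB]; exact hsne _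
    have hcB : (0 : ℝ) < B.card := by exact_mod_cast Finset.card_pos.2 hBne
    have j1 := h1 (Fin d → ℕ) B (fun y => (1 / 2 : ℝ) ^ ((supp x ∩ T).card + (supp y).card)) hBne
      (fun y _ => by positivity)
    have j2 := h6 d B (K ^ 3) (by rw [hB]; exact s1 _) hBne (by rw [hB]; exact h4 d A K hD hne hAK _)
    rw [Real.log_pow] at j2
    have e1 : ∀ y : Fin d → ℕ, Real.log ((1 / 2 : ℝ) ^ ((supp x ∩ T).card + (supp y).card)) =
        -((supp x ∩ T).card : ℝ) * Real.log 2 - ((supp y).card : ℝ) * Real.log 2 := by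
      intro y
      rw [Real.log_pow, one_div, Real.log_inv]
      push_cast
      ring
    have hGx : G x = ∑ y ∈ B, (1 / 2 : ℝ) ^ ((supp x ∩ T).card + (supp y).card) := by
      rw [hG, hB]
    rw [← hGx, Finset.sum_congr rfl fun y _ => e1 y, Finset.sum_sub_distrib, Finset.sum_const,
      nsmul_eq_mul, ← Finset.sum_mul, Real.log_div (hG0 x).ne' hcB.ne'] at j1
    have e2 : ((supp x ∩ T).card : ℝ) ≤ (supp x).card := by
      exact_mod_cast Finset.card_le_card Finset.inter_subset_left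
    have e3 : ((supp x ∩ T).card : ℝ) * Real.log 2 ≤ (supp x).card * Real.log 2 :=
      mul_le_mul_of_nonneg_right e2 hl2.le
    have e4 : (B.card : ℝ) * (-((supp x ∩ T).card : ℝ) * Real.log 2 + Real.log B.card -
        3 * Real.log K) ≤ B.card * Real.log (G x) := by
      push_cast at j2
      nlinarith
    have e5 := le_of_mul_le_mul_left e4 hcB
    rw [← hB]
    linarith
  -- the sum over `x`
  have hsum : ∑ x ∈ A, Real.log ((sec A (T \ supp x)).card) ≤ 5 * A.card * Real.log K := by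
    have j1 := h1 (Fin d → ℕ) A G hne fun x _ => hG0 x
    have j2 := h5 d A T hD
    rw [← Finset.sum_congr rfl fun x _ => hG x] at j2
    have j3 : Real.log ((∑ x ∈ A, G x) / A.card) ≤ Real.log K := by
      apply Real.log_le_log (div_pos (Finset.sum_pos (fun x _ => hG0 x) hne) hcA)
      rw [div_le_iff₀ hcA]
      exact j2.trans hAK
    have j4 := Finset.sum_le_sum fun x (_ : x ∈ A) => hlow x
    rw [Finset.sum_sub_distrib, Finset.sum_add_distrib, Finset.sum_const, nsmul_eq_mul,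
      ← Finset.sum_mul, Finset.sum_neg_distrib] at j4
    have j5 := mul_le_mul_of_nonneg_left j3 hcA.le
    nlinarith
  -- the box theorem
  obtain ⟨P, hP⟩ : ∃ P, P = sec A T := ⟨_, rfl⟩
  have hPD : Down P := by rw [hP]; exact s1 T
  have hPne : P.Nonempty := by rw [hP]; exact hsne T
  obtain ⟨-, p2, -, -⟩ := h3 d P hPD
  obtain ⟨c, c0, c1, c2⟩ := h2 d P hPne
  have himg : ∀ R, R ⊆ T → P.image (cut R) = sec A R := fun R hR => by
    rw [← p2 R, hP, sec_sec A hR]
  have hcT : ∀ i, i ∉ T → c i = 0 := by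
    intro i hi
    have j1 := c1 {i}
    rw [Finset.sum_singleton, ← p2 {i}] at j1
    have j2 : sec P {i} ⊆ {0} := by
      intro x hx
      rw [hP] at hx
      obtain ⟨hx1, hx2⟩ := mem_sec.1 hx
      obtain ⟨-, hx3⟩ := mem_sec.1 hx1
      rw [Finset.mem_singleton]
      funext j
      by_contra hj
      have hj' : j ∈ supp x := mem_supp.2 hj
      have h7 := Finset.mem_singleton.1 (hx2 hj')
      exact hi (h7 ▸ hx3 hj')
    have j3 : (((sec P {i}).card : ℕ) : ℝ) ≤ 1 := by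
      have := Finset.card_le_card j2
      rw [Finset.card_singleton] at this
      exact_mod_cast this
    have j4 : Real.log ((sec P {i}).card) ≤ 0 := Real.log_nonpos (Nat.cast_nonneg _) j3
    exact le_antisymm (j1.trans j4) (c0 i)
  have hcsum : ∑ i ∈ T, c i = Real.log P.card := by
    rw [← c2]
    exact Finset.sum_subset (Finset.subset_univ T) fun i _ hi => hcT i hi
  have hbox : ∑ x ∈ A, ∑ i ∈ T \ supp x, c i ≤ ∑ x ∈ A, Real.log ((sec A (T \ supp x)).card) := by
    refine Finset.sum_le_sum fun x _ => ?_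
    have j1 := c1 (T \ supp x)
    rwa [himg _ Finset.sdiff_subset] at j1
  rw [dc2] at hbox
  have hlast : (A.card : ℝ) / 2 * Real.log P.card ≤ 5 * A.card * Real.log K := by
    refine le_trans ?_ (hbox.trans hsum)
    rw [← hcsum, Finset.mul_sum]
    refine Finset.sum_le_sum fun i hi => ?_
    have j1 : i ∉ S := by
      rw [hT] at hi
      exact Finset.mem_compl.1 hi
    have j2 : N i < (A.card : ℝ) / 2 := by
      by_contra h7
      exact j1 ((hS i).2 (not_lt.1 h7))
    rw [← hN i]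
    have j3 := c0 i
    nlinarith
  have hfin : Real.log P.card ≤ 10 * Real.log K := by
    have j1 : (A.card : ℝ) * Real.log P.card ≤ A.card * (10 * Real.log K) := by linarith
    exact le_of_mul_le_mul_left j1 hcA
  have hcP : (0 : ℝ) < P.card := by exact_mod_cast Finset.card_pos.2 hPne
  rw [← hP]
  rw [← Real.log_le_log_iff hcP (by positivity), Real.log_pow]
  push_cast
  exact hfin

end Pool.Agent.DSX
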