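import Pool.Agent.DSX.Stm

/-!
# DSX, piece SUP (helper94)
-/

set_option autoImplicit false

namespace Pool.Agent.DSX

open Finset Pointwise

namespace SUPx

/-- `2 x - 1_Q` -/
def mp {d : ℕ} (p : Σ _ : Fin d → ℕ, Finset (Fin d)) : Fin d → ℕ := fun i => 2 * p.1 i - if i ∈ p.2 then 1 else 0

lemma recov {d : ℕ} {x : Fin d → ℕ} {Q : Finset (Fin d)} (hQ : Q ⊆ supp x) (i : Fin d) :
    x i = (mp ⟨x, Q⟩ i + 1) / 2 ∧ (i ∈ Q ↔ mp ⟨x, Q⟩ i % 2 = 1) := by
  unfold mp
  by_cases h : i ∈ Q
  · have h1 : x i ≠ 0 := by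
      have := hQ h
      unfold supp at this
      exact (mem_filter.1 this).2
    simp only [h, if_true, true_iff]
    omega
  · simp only [h, if_false, false_iff]
    omega

end SUPx

open SUPx in
theorem t_SUP : S_SUP := by
  intro d A hA
  have h1 : ∑ x ∈ A, 2 ^ (supp x).card = (A.sigma fun x => (supp x).powerset).card := by
    rw [card_sigma]
    exact sum_congr rfl fun x _ => (card_powerset _).symm
  rw [h1]
  refine card_le_card_of_injOn mp ?_ ?_
  · rintro ⟨x, Q⟩ hx
    have hx' := mem_sigma.1 (mem_coe.1 hx)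
    refine mem_coe.2 (mem_add.2 ⟨x, hx'.1, fun i => x i - if i ∈ Q then 1 else 0,
      hA x hx'.1 _ (fun i => Nat.sub_le _ _), ?_⟩)
    funext i
    have h2 := recov (mem_powerset.1 hx'.2) i
    have hQ : i ∈ Q → x i ≠ 0 := by
      intro h
      have := (mem_powerset.1 hx'.2) h
      unfold supp at this
      exact (mem_filter.1 this).2
    change x i + (x i - if i ∈ Q then 1 else 0) = 2 * x i - if i ∈ Q then 1 else 0
    by_cases h : i ∈ Q
    · have := hQ h
      simp only [h, if_true]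
      omega
    · simp only [h, if_false]
      omega
  · rintro ⟨x, Q⟩ hx ⟨y, R⟩ hy h
    have hx' : Q ⊆ supp x := mem_powerset.1 (mem_sigma.1 (mem_coe.1 hx)).2
    have hy' : R ⊆ supp y := mem_powerset.1 (mem_sigma.1 (mem_coe.1 hy)).2
    have e1 : x = y := by
      funext i
      rw [(recov hx' i).1, (recov hy' i).1, h]
    have e2 : Q = R := by
      ext i
      rw [(recov hx' i).2, (recov hy' i).2, h]
    rw [e1, e2]

end Pool.Agent.DSX
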