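import Mathlib
/-!
# Project DSX (helper99): polynomial Freiman-Ruzsa for images of down-sets in N^d (hard MP_626a77_co)

THEOREM: a finite down-set `A` in `ℕ^d`, any `d`, with `|A + A| ≤ K |A|` is covered by `K^21` translates of one box of
dimension at most `2 log_2 K` and volume at most `|A|` (the integer analogue of the theorem of Green and Tao for
down-sets in `F_2^n`); the same for the Freiman images of down-sets in any abelian group.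
-/
set_option autoImplicit false
namespace Pool.Agent.DSX
open Finset Pointwise

/-- down-set -/
def Down {d : ℕ} (A : Finset (Fin d → ℕ)) : Prop := ∀ x ∈ A, ∀ y, y ≤ x → y ∈ A

/-- support -/
def supp {d : ℕ} (x : Fin d → ℕ) : Finset (Fin d) := univ.filter fun i => x i ≠ 0

/-- the elements with support in `R` -/
def sec {d : ℕ} (A : Finset (Fin d → ℕ)) (R : Finset (Fin d)) : Finset (Fin d → ℕ) := A.filter fun x => supp x ⊆ R

/-- the coordinates in `R` are kept, the others are replaced by zero -/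
def cut {d : ℕ} (R : Finset (Fin d)) (x : Fin d → ℕ) : Fin d → ℕ := fun i => if i ∈ R then x i else 0

/-- DSX-SUP (50 lines): theorem t_SUP : S_SUP.
Proof. For `x ∈ A` and `Q ⊆ supp x` the point `z = 2 x - 1_Q = x + (x - 1_Q)` is in `A + A`. `(x, Q) ↦ z` is injective: `Q` is the
set of the odd coordinates of `z` and `x i = (z i + 1) / 2`. (`card_le_card_of_injOn` from the sigma `A.sigma fun x => (supp x).powerset`.) -/
def S_SUP : Prop := ∀ (d : ℕ) (A : Finset (Fin d → ℕ)), Down A → ∑ x ∈ A, 2 ^ (supp x).card ≤ (A + A).card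

/-- DSX-JEN (30 lines): theorem t_JEN : S_JEN.  Jensen for the logarithm (`Real.add_pow_le_pow_mul_pow_of_add_eq_one`, or
`strictConcaveOn_log_Ioi.concaveOn.le_map_sum`), with weights `1 / |A|`. -/
def S_JEN : Prop := ∀ (α : Type) (A : Finset α) (g : α → ℝ), A.Nonempty → (∀ x ∈ A, 0 < g x) →
  ∑ x ∈ A, Real.log (g x) ≤ A.card * Real.log ((∑ x ∈ A, g x) / A.card)

/-- DSX-LSI (30 lines): theorem t_LSI : S_LSI.  Jensen for the logarithm with the weights `w`. -/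
def S_LSI : Prop := ∀ (α : Type) (A : Finset α) (w g : α → ℝ), (∀ x ∈ A, 0 < w x) → (∀ x ∈ A, 0 < g x) →
  ∑ x ∈ A, w x = 1 → ∑ x ∈ A, w x * Real.log (g x / w x) ≤ Real.log (∑ x ∈ A, g x)

/-- DSX-BOX (130 lines): theorem t_BOX (h : S_LSI) : S_BOX.  The box theorem (entropy version).
Proof. Induction on `U` (`Finset.induction_on`, all `A`) of: if all `x ∈ A` vanish outside `U` then there is `c : Fin d → ℝ`, zero
outside `U`, with `∑ i ∈ R, c i ≤ log |cut R A|` for all `R` and `∑ i ∈ U, c i = log |A|`. Step `insert j U`: for the values `a` of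
`x j`, `x ∈ A`, let `A_a = {x ∈ A, x j = a}` with the `j`-th coordinate replaced by zero, `w_a = |A_a| / |A|`, `c^a` the numbers of `A_a`;
`c i = ∑_a w_a c^a i` for `i ≠ j`, `c j = ∑_a w_a log (1 / w_a)`. The sum is `∑_a w_a (log |A_a| - log w_a) = log |A|`. If `j ∉ R`:
`∑_{R} c ≤ ∑_a w_a log |cut R A_a| ≤ log |cut R A|`. If `j ∈ R`: `∑_R c ≤ ∑_a w_a log (|cut R A_a| / w_a) ≤ log ∑_a |cut R A_a|`
(S_LSI) `= log |cut R A|` (the parts with different `x j` are disjoint; `R \ j` and `R` cut `A_a` equally). At the end `U = univ`;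
`0 ≤ c i` as `∑_{R} c ≤ log |cut R A| ≤ log |A| = ∑ c` for `R = univ \ i`. -/
def S_BOX : Prop := ∀ (d : ℕ) (A : Finset (Fin d → ℕ)), A.Nonempty → ∃ c : Fin d → ℝ, (∀ i, 0 ≤ c i) ∧
  (∀ R : Finset (Fin d), ∑ i ∈ R, c i ≤ Real.log ((A.image (cut R)).card)) ∧ ∑ i, c i = Real.log A.card

/-- DSX-SEC (60 lines): theorem t_SEC : S_SEC.
(a) `sec` of a down-set is a down-set; (b) it is the image of `cut R`; (c) `|A| ≤ |sec A R| |sec A Rᶜ|` (`x ↦ (cut R x, cut Rᶜ x)`);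
(d) for disjoint `R`, `R'`: `|sec A R| |sec A R'| ≤ |A + A|` (`(x, y) ↦ x + y` is injective: cut). -/
def S_SEC : Prop := ∀ (d : ℕ) (A : Finset (Fin d → ℕ)), Down A → (∀ R, Down (sec A R)) ∧ (∀ R, sec A R = A.image (cut R)) ∧
  (∀ R : Finset (Fin d), A.card ≤ (sec A R).card * (sec A Rᶜ).card) ∧
  ∀ R R' : Finset (Fin d), Disjoint R R' → (sec A R).card * (sec A R').card ≤ (A + A).card

/-- DSX-DBL (60 lines): theorem t_DBL (h : S_SEC) : S_DBL.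
Proof. `|sec A R + sec A R| |sec A Rᶜ| ≤ |A + A + A|` (`(s, y) ↦ s + y` is injective, the parts are supported in `R`, `Rᶜ`)
`≤ K^3 |A| ≤ K^3 |sec A R| |sec A Rᶜ|`. For `|A + A + A| ≤ K^3 |A|` use the Pluennecke inequality of Mathlib in the group
`Fin d → ℤ` for the image of `A` (`Finset.pluennecke_petridis_inequality_add`, `Finset.card_nsmul_le`...). -/
def S_DBL : Prop := ∀ (d : ℕ) (A : Finset (Fin d → ℕ)) (K : ℝ), Down A → A.Nonempty → ((A + A).card : ℝ) ≤ K * A.card →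
  ∀ R : Finset (Fin d), ((sec A R + sec A R).card : ℝ) ≤ K ^ 3 * (sec A R).card

/-- DSX-PRS (70 lines): theorem t_PRS : S_PRS.
Proof. The sum is over the pairs `(x, y)`, `x ∈ A`, `y ∈ sec A (T \ supp x)`. `z = x + y ∈ A + A`; the supports of `x`, `y` are disjoint,
`supp y ⊆ T`, so `|supp x ∩ T| + |supp y| = |supp z ∩ T|`. For a given `z` the pair is determined by `supp y ⊆ supp z ∩ T`
(`y = cut (supp y) z`, `x = z - y`), so there are at most `2 ^ |supp z ∩ T|` pairs, each of weight `2 ^ (- |supp z ∩ T|)`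
(`Finset.sum_fiberwise_of_maps_to` or `sum_comp`). -/
def S_PRS : Prop := ∀ (d : ℕ) (A : Finset (Fin d → ℕ)) (T : Finset (Fin d)), Down A →
  ∑ x ∈ A, ∑ y ∈ sec A (T \ supp x), (1 / 2 : ℝ) ^ ((supp x ∩ T).card + (supp y).card) ≤ (A + A).card

/-- DSX-AVG (50 lines): theorem t_AVG (h1 : S_SUP) (h2 : S_JEN) : S_AVG.
Proof. S_JEN with `g x = 2 ^ |supp x|`: `∑ |supp x| log 2 ≤ |A| log (∑ 2 ^ |supp x| / |A|) ≤ |A| log K` by S_SUP. -/
def S_AVG : Prop := ∀ (d : ℕ) (A : Finset (Fin d → ℕ)) (K : ℝ), Down A → A.Nonempty → ((A + A).card : ℝ) ≤ K * A.card →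
  (∑ x ∈ A, ((supp x).card : ℝ)) * Real.log 2 ≤ A.card * Real.log K

/-- DSX-SML (110 lines): theorem t_SML (h1 : S_JEN) (h2 : S_BOX) (h3 : S_SEC) (h4 : S_DBL) (h5 : S_PRS) (h6 : S_AVG) : S_SML.
Proof. `p i = |{x ∈ A, x i ≠ 0}| / |A|`, `∑ p i = ∑_x |supp x| / |A| ≤ log K / log 2` (S_AVG). `S = {i, 1 / 2 ≤ p i}`, so
`|S| / 2 ≤ log K / log 2`. `T = Sᶜ`. For `x ∈ A` let `R = T \ supp x`, `G x = ∑_{y ∈ sec A R} (1/2)^(|supp x ∩ T| + |supp y|)`. S_JEN on `sec A R`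
(nonempty, contains 0) and S_AVG for `sec A R` with `K^3` (S_DBL, S_SEC): `log G x ≥ - |supp x ∩ T| log 2 + log |sec A R| - 3 log K`.
S_JEN on `A`: `log K ≥ log (∑ G x / |A|) ≥ (1 / |A|) ∑_x log G x ≥ - log K - 3 log K + (1/|A|) ∑_x log |sec A (T \ supp x)|`.
S_BOX for `sec A T`: `log |sec A (T \ supp x)| ≥ ∑_{i ∈ T \ supp x} c i` (`cut R (sec A T) = sec A R` for `R ⊆ T`), the average is
`≥ ∑_{i ∈ T} (1 - p i) c i ≥ (1/2) ∑_{i ∈ T} c i = (1/2) log |sec A T|` (`c i = 0` for `i ∉ T`: `cut {i} (sec A T) = {0}`).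
So `(1/2) log |sec A T| ≤ 5 log K`. -/
def S_SML : Prop := ∀ (d : ℕ) (A : Finset (Fin d → ℕ)) (K : ℝ), Down A → A.Nonempty → 1 ≤ K → ((A + A).card : ℝ) ≤ K * A.card →
  ∃ S : Finset (Fin d), (S.card : ℝ) * Real.log 2 ≤ 2 * Real.log K ∧ ((sec A Sᶜ).card : ℝ) ≤ K ^ 10

/-- the box `0 ≤ u i < n i` in the coordinates `i ∈ S` -/
def box {d : ℕ} (S : Finset (Fin d)) (n : Fin d → ℕ) : Finset (Fin d → ℕ) :=
  Fintype.piFinset fun i => range (if i ∈ S then n i else 1)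

/-- DSX-SMB (80 lines): theorem t_SMB : S_SMB.
Proof. For `z = x + u` let `R = {i ∈ S, z i < n i}`. `z` is determined by `R`, by `cut R z`, an element of the box of `R` (it has
`∏_{i ∈ R} n i` elements), and by `v = (z - n)` on `S \ R`, zero elsewhere; `v ≤ x`, so `v ∈ sec P (S \ R)`. (Outside `S` all is zero.) -/
def S_SMB : Prop := ∀ (d : ℕ) (P : Finset (Fin d → ℕ)) (S : Finset (Fin d)) (n : Fin d → ℕ), Down P →
  (∀ x ∈ P, supp x ⊆ S) → (∀ i, 1 ≤ n i) →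
  (P + box S n).card ≤ ∑ R ∈ S.powerset, (∏ i ∈ R, n i) * (sec P (S \ R)).card

/-- DSX-COV (60 lines): theorem t_COV : S_COV.  Ruzsa covering.
Proof. Take a maximal subset `X` of `P` such that the translates `t + box S n`, `t ∈ X`, are disjoint; `|X| |box| ≤ |P + box|`. For
`x ∈ P` some `x + u = t + u'`, so `|x i - t i| < n i` for `i ∈ S`, `x i = t i` for `i ∉ S`. -/
def S_COV : Prop := ∀ (d : ℕ) (P : Finset (Fin d → ℕ)) (S : Finset (Fin d)) (n : Fin d → ℕ), (∀ i, 1 ≤ n i) →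
  ∃ X : Finset (Fin d → ℕ), X.card * ∏ i ∈ S, n i ≤ (P + box S n).card ∧
    ∀ x ∈ P, ∃ t ∈ X, (∀ i ∈ S, |(x i : ℤ) - t i| < n i) ∧ ∀ i, i ∉ S → x i = t i

/-- DSX-THR (60 lines): theorem t_THR : S_THR.  A box is covered by `3 ^ |S|` translates of the box with the half sides.
Proof. `L i = (n i - 1) / 2`, the centres are the `t` with `t i ∈ {-(2 L i + 1), 0, 2 L i + 1}` for `i ∈ S` and `t i = 0` else. -/
def S_THR : Prop := ∀ (d : ℕ) (S : Finset (Fin d)) (n : Fin d → ℕ), (∀ i, 1 ≤ n i) →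
  ∃ X : Finset (Fin d → ℤ), X.card ≤ 3 ^ S.card ∧ ∀ c : Fin d → ℤ, (∀ i ∈ S, |c i| < n i) → (∀ i, i ∉ S → c i = 0) →
    ∃ t ∈ X, (∀ i ∈ S, |c i - t i| ≤ ((n i - 1) / 2 : ℕ)) ∧ ∀ i, i ∉ S → t i = 0

/-- DSX-PBX (90 lines): theorem t_PBX (h1 : S_BOX) (h2 : S_SEC) (h3 : S_SMB) (h4 : S_COV) : S_PBX.
Proof. S_BOX for `P`: `b i = exp (c i) ≥ 1`, `n i = ⌊b i⌋₊`, `b i / 2 ≤ n i ≤ b i`. `∏_{i ∈ R} n i ≤ |cut R P| = |sec P R|`,
`∏_{i ∈ S} n i ≥ 2 ^ (-|S|) |P|` (`c i = 0` for `i ∉ S`: `cut {i} P = {0}`). S_SMB, S_SEC (d): `|P + box| ≤ ∑_R |sec P R| |sec P (S \ R)|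
≤ 2 ^ |S| |P + P|`. S_COV: `|X| ≤ |P + box| / ∏ n i ≤ 4 ^ |S| |P + P| / |P|`. -/
def S_PBX : Prop := ∀ (d : ℕ) (P : Finset (Fin d → ℕ)) (S : Finset (Fin d)) (K : ℝ), Down P → P.Nonempty →
  (∀ x ∈ P, supp x ⊆ S) → ((P + P).card : ℝ) ≤ K * P.card →
  ∃ (n : Fin d → ℕ) (X : Finset (Fin d → ℕ)), (∀ i, 1 ≤ n i) ∧ ∏ i ∈ S, n i ≤ P.card ∧ (X.card : ℝ) ≤ 4 ^ S.card * K ∧
    ∀ x ∈ P, ∃ t ∈ X, (∀ i ∈ S, |(x i : ℤ) - t i| < n i) ∧ ∀ i, i ∉ S → x i = t i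

/-- DSX-MAIN (90 lines): theorem t_MAIN (h1 : S_SML) (h2 : S_SEC) (h3 : S_DBL) (h4 : S_PBX) (h5 : S_THR) : S_MAIN.
Proof. `S` of S_SML, `P = sec A S` (doubling `K^3`, S_DBL), `n`, `X` of S_PBX, `Y` of S_THR, `L i = (n i - 1) / 2`, so `2 L i + 1 ≤ n i`. The
translates: `s + t + y`, `s ∈ sec A Sᶜ` (`≤ K^10`), `t ∈ X` (`≤ 4^|S| K^3`), `y ∈ Y` (`≤ 3^|S|`); `12 ^ |S| ≤ K^8` as
`|S| log 2 ≤ 2 log K` and `12 ≤ 16`. `x = cut S x + cut Sᶜ x`. -/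
def S_MAIN : Prop := ∀ (d : ℕ) (A : Finset (Fin d → ℕ)) (K : ℝ), Down A → A.Nonempty → 1 ≤ K → ((A + A).card : ℝ) ≤ K * A.card →
  ∃ (S : Finset (Fin d)) (L : Fin d → ℕ) (X : Finset (Fin d → ℤ)), (S.card : ℝ) * Real.log 2 ≤ 2 * Real.log K ∧
    ∏ i ∈ S, (2 * L i + 1) ≤ A.card ∧ (X.card : ℝ) ≤ K ^ 21 ∧
    ∀ x ∈ A, ∃ t ∈ X, (∀ i ∈ S, |(x i : ℤ) - t i| ≤ L i) ∧ ∀ i, i ∉ S → (x i : ℤ) = t i

end Pool.Agent.DSX
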