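import Pool.Agent.DSX.Stm
/-!
# Project DSX (helper99): unconditional sets
-/
set_option autoImplicit false
namespace Pool.Agent.DSX
open Finset Pointwise

/-- unconditional set of integral points -/
def Uncond {d : ℕ} (A : Finset (Fin d → ℤ)) : Prop := ∀ x ∈ A, ∀ y : Fin d → ℤ, (∀ i, |y i| ≤ |x i|) → y ∈ A

/-- DSX-UNA (60 lines): theorem t_UNA : S_UNA.  Let `D` be the part of the unconditional `A` in `ℕ^d`.
Proof. `D = A.image (fun x i => (x i).natAbs)`. Every `x ∈ D` gives the `2 ^ |supp x|` points with the coordinates `± x i`. -/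
def S_UNA : Prop := ∀ (d : ℕ) (A : Finset (Fin d → ℤ)), Uncond A → ∃ D : Finset (Fin d → ℕ), Down D ∧
  (∀ x : Fin d → ℕ, x ∈ D ↔ (fun i => (x i : ℤ)) ∈ A) ∧ A.card = ∑ x ∈ D, 2 ^ (supp x).card

/-- DSX-UNB (90 lines): theorem t_UNB : S_UNB.
Proof. For `x ∈ D`, `Q ⊆ supp x`, `E ⊆ supp x` the point `z` with `z i = ± (2 x i - 1_Q i)` (sign `-` for `i ∈ E`) is the sum of the two
points `± x i` and `± (x i - 1_Q i)` (same signs) of `A`. `(x, Q, E) ↦ z` is injective: `|z i|`, parity, sign; note that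
`2 x i - 1 ≥ 1` for `x i ≥ 1`. So `∑_{x ∈ D} 4 ^ |supp x| ≤ |A + A|`. -/
def S_UNB : Prop := ∀ (d : ℕ) (A : Finset (Fin d → ℤ)) (D : Finset (Fin d → ℕ)), Uncond A →
  (∀ x : Fin d → ℕ, x ∈ D ↔ (fun i => (x i : ℤ)) ∈ A) → ∑ x ∈ D, 4 ^ (supp x).card ≤ (A + A).card

/-- DSX-UNC (30 lines): theorem t_UNC (h1 : S_UNA) (h2 : S_UNB) : S_UNC.
Proof. `(∑_D 2^s)^2 ≤ |D| ∑_D 4^s ≤ |D| |A + A| ≤ |D| K |A|` (Cauchy-Schwarz, `sq_sum_le_card_mul_sum_sq`) and `∑_D 2^s = |A| > 0`. -/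
def S_UNC : Prop := ∀ (d : ℕ) (A : Finset (Fin d → ℤ)) (K : ℝ), Uncond A → A.Nonempty → ((A + A).card : ℝ) ≤ K * A.card →
  ∃ D : Finset (Fin d → ℕ), Down D ∧ D.Nonempty ∧ (∀ x ∈ D, (fun i => (x i : ℤ)) ∈ A) ∧ (A.card : ℝ) ≤ K * D.card

end Pool.Agent.DSX
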