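import Pool.Agent.DSX.Stm

/-!
# Project DSX, piece THR (helper75): a box is covered by `3 ^ |S|` translates of the box with the half sides
-/

set_option autoImplicit false

namespace Pool.Agent.DSX

open Finset

theorem t_THR : S_THR := by
  classical
  intro d S n hn
  refine ⟨Fintype.piFinset (fun i => if i ∈ S then
    ({-(2 * (((n i - 1) / 2 : ℕ) : ℤ) + 1), 0, 2 * (((n i - 1) / 2 : ℕ) : ℤ) + 1} : Finset ℤ) else {0}), ?_, ?_⟩
  · rw [Fintype.card_piFinset]
    have h1 : ∏ i : Fin d, (if i ∈ S then 3 else 1) = 3 ^ S.card := by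
      rw [Finset.prod_ite_mem, Finset.univ_inter, Finset.prod_const]
    rw [← h1]
    refine Finset.prod_le_prod' fun i _ => ?_
    by_cases hi : i ∈ S
    · rw [if_pos hi, if_pos hi]
      exact Finset.card_le_three
    · rw [if_neg hi, if_neg hi]
      simp
  · intro c hc hc0
    refine ⟨fun i => if i ∈ S then (if |c i| ≤ (((n i - 1) / 2 : ℕ) : ℤ) then 0 else
      if 0 < c i then 2 * (((n i - 1) / 2 : ℕ) : ℤ) + 1 else -(2 * (((n i - 1) / 2 : ℕ) : ℤ) + 1)) else 0,
      ?_, ?_, ?_⟩
    · rw [Fintype.mem_piFinset]
      intro i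
      by_cases hi : i ∈ S
      · simp only [if_pos hi]
        split_ifs <;> simp
      · simp only [if_neg hi]
        simp
    · intro i hi
      simp only [if_pos hi]
      have h2 := hc i hi
      have h3 := hn i
      rw [abs_lt] at h2
      by_cases h4 : |c i| ≤ (((n i - 1) / 2 : ℕ) : ℤ)
      · rw [if_pos h4, sub_zero]
        exact h4
      · rw [if_neg h4]
        rw [abs_le, not_and_or] at h4
        by_cases h5 : 0 < c i
        · rw [if_pos h5, abs_le]
          constructor <;> omega
        · rw [if_neg h5, abs_le]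
          constructor <;> omega
    · intro i hi
      simp only [if_neg hi]

end Pool.Agent.DSX
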