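import Pool.Agent.DSX.Stm2

set_option autoImplicit false

namespace Pool.Agent.DSX
open Finset Pointwise

namespace UNAx

lemma fiber {d : ℕ} (A : Finset (Fin d → ℤ)) (hA : Uncond A) (x : Fin d → ℕ)
    (hx : (fun i => (x i : ℤ)) ∈ A) :
    (A.filter (fun a => (fun i => (a i).natAbs) = x)).card = 2 ^ (univ.filter (fun i => x i ≠ 0)).card := by
  classical
  have h1 : A.filter (fun a => (fun i => (a i).natAbs) = x) =
      Fintype.piFinset (fun i => ({(x i : ℤ), -(x i : ℤ)} : Finset ℤ)) := by
    ext a
    rw [mem_filter, Fintype.mem_piFinset]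
    constructor
    · rintro ⟨_, h⟩ i
      have h2 := congrFun h i
      rw [mem_insert, mem_singleton]
      omega
    · intro h
      have h3 : ∀ i, (a i).natAbs = x i := by
        intro i
        have h2 := h i
        rw [mem_insert, mem_singleton] at h2
        omega
      refine ⟨hA _ hx a fun i => ?_, funext h3⟩
      have := h3 i
      rw [abs_le, abs_of_nonneg (Int.natCast_nonneg _)]
      omega
  rw [h1, Fintype.card_piFinset]
  have h4 : ∀ i, ({(x i : ℤ), -(x i : ℤ)} : Finset ℤ).card = if x i ≠ 0 then 2 else 1 := by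
    intro i
    split_ifs with h
    · rw [card_pair]
      omega
    · push_neg at h
      rw [h]
      simp
  rw [prod_congr rfl fun i _ => h4 i, prod_ite, prod_const, prod_const_one, mul_one]

end UNAx

open UNAx in
theorem t_UNA : S_UNA := by
  classical
  intro d A hA
  have hmem : ∀ x : Fin d → ℕ, x ∈ A.image (fun a i => (a i).natAbs) ↔ (fun i => (x i : ℤ)) ∈ A := by
    intro x
    rw [mem_image]
    constructor
    · rintro ⟨a, ha, rfl⟩
      refine hA a ha _ fun i => ?_
      rw [Int.natCast_natAbs, abs_abs]
    · intro h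
      exact ⟨_, h, by funext i; simp⟩
  refine ⟨A.image (fun a i => (a i).natAbs), ?_, hmem, ?_⟩
  · intro x hx y hy
    rw [hmem] at hx ⊢
    refine hA _ hx _ fun i => ?_
    have := hy i
    rw [abs_of_nonneg (Int.natCast_nonneg _), abs_of_nonneg (Int.natCast_nonneg _)]
    exact_mod_cast this
  · rw [card_eq_sum_card_image (fun a i => (a i).natAbs) A]
    refine sum_congr rfl fun x hx => ?_
    rw [fiber A hA x ((hmem x).1 hx)]
    rfl

end Pool.Agent.DSX
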