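import Pool.Agent.DSX.Stm2

/-! Piece UNB of the project DSX. -/

set_option autoImplicit false

namespace Pool.Agent.DSX

open Finset Pointwise

theorem t_UNB : S_UNB := by
  classical
  intro d A D hA hD
  let g : (Σ _ : Fin d → ℕ, Finset (Fin d) × Finset (Fin d)) → (Fin d → ℤ) := fun p i =>
    (if i ∈ p.2.2 then -1 else 1) * (2 * (p.1 i : ℤ) - if i ∈ p.2.1 then 1 else 0)
  have hcard : (D.sigma fun x => (supp x).powerset ×ˢ (supp x).powerset).card =
      ∑ x ∈ D, 4 ^ (supp x).card := by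
    rw [Finset.card_sigma]
    refine Finset.sum_congr rfl fun x _ => ?_
    rw [Finset.card_product, Finset.card_powerset, ← mul_pow]
    norm_num
  have hsupp : ∀ (x : Fin d → ℕ) (i : Fin d), i ∈ supp x ↔ x i ≠ 0 := by
    intro x i
    rw [supp, Finset.mem_filter]
    exact ⟨fun h => h.2, fun h => ⟨Finset.mem_univ _, h⟩⟩
  rw [← hcard]
  refine Finset.card_le_card_of_injOn g ?_ ?_
  · rintro ⟨x, Q, E⟩ hp
    rw [Finset.mem_coe, Finset.mem_sigma, Finset.mem_product, Finset.mem_powerset,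
      Finset.mem_powerset] at hp
    obtain ⟨hx, hQ, hE⟩ := hp
    have hx' := (hD x).1 hx
    rw [Finset.mem_coe, Finset.mem_add]
    refine ⟨fun i => (if i ∈ E then -1 else 1) * (x i : ℤ), hA _ hx' _ fun i => ?_,
      fun i => (if i ∈ E then -1 else 1) * ((x i : ℤ) - if i ∈ Q then 1 else 0),
      hA _ hx' _ fun i => ?_, ?_⟩
    · show |(if i ∈ E then (-1 : ℤ) else 1) * (x i : ℤ)| ≤ |((x i : ℕ) : ℤ)|
      split_ifs <;> simp
    · show |(if i ∈ E then (-1 : ℤ) else 1) * ((x i : ℤ) - if i ∈ Q then 1 else 0)| ≤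
        |((x i : ℕ) : ℤ)|
      have h1 : i ∈ Q → 1 ≤ x i := fun h => Nat.one_le_iff_ne_zero.2 ((hsupp x i).1 (hQ h))
      have h2 : |(if i ∈ E then (-1 : ℤ) else 1)| = 1 := by split_ifs <;> simp
      rw [abs_mul, h2, one_mul]
      split_ifs with h
      · have h3 := h1 h
        rw [abs_of_nonneg (by omega), abs_of_nonneg (by omega)]
        omega
      · rw [sub_zero]
    · funext i
      show (if i ∈ E then (-1 : ℤ) else 1) * (x i : ℤ) +
        (if i ∈ E then (-1 : ℤ) else 1) * ((x i : ℤ) - if i ∈ Q then 1 else 0) =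
        (if i ∈ E then -1 else 1) * (2 * (x i : ℤ) - if i ∈ Q then 1 else 0)
      ring
  · rintro ⟨x, Q, E⟩ hp ⟨x', Q', E'⟩ hp' h
    rw [Finset.mem_coe, Finset.mem_sigma, Finset.mem_product, Finset.mem_powerset,
      Finset.mem_powerset] at hp hp'
    obtain ⟨_, hQ, hE⟩ := hp
    obtain ⟨_, hQ', hE'⟩ := hp'
    dsimp only at hQ hE hQ' hE'
    have key : ∀ i, x i = x' i ∧ (i ∈ Q ↔ i ∈ Q') ∧ (i ∈ E ↔ i ∈ E') := by
      intro i
      have h0 : (if i ∈ E then (-1 : ℤ) else 1) * (2 * (x i : ℤ) - if i ∈ Q then 1 else 0) =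
        (if i ∈ E' then -1 else 1) * (2 * (x' i : ℤ) - if i ∈ Q' then 1 else 0) := congrFun h i
      have h1 : i ∈ Q → 1 ≤ x i := fun h => Nat.one_le_iff_ne_zero.2 ((hsupp x i).1 (hQ h))
      have h2 : i ∈ E → 1 ≤ x i := fun h => Nat.one_le_iff_ne_zero.2 ((hsupp x i).1 (hE h))
      have h3 : i ∈ Q' → 1 ≤ x' i := fun h => Nat.one_le_iff_ne_zero.2 ((hsupp x' i).1 (hQ' h))
      have h4 : i ∈ E' → 1 ≤ x' i := fun h => Nat.one_le_iff_ne_zero.2 ((hsupp x' i).1 (hE' h))
      by_cases a1 : i ∈ Q <;> by_cases a2 : i ∈ E <;> by_cases a3 : i ∈ Q' <;>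
        by_cases a4 : i ∈ E' <;>
        simp only [a1, a2, a3, a4, if_true, if_false, true_implies, false_implies, iff_self,
          iff_true, iff_false, true_iff, false_iff, not_true_eq_false, not_false_eq_true,
          and_true, and_false, forall_true_left] at h0 h1 h2 h3 h4 ⊢ <;> omega
    have e1 : x = x' := funext fun i => (key i).1
    have e2 : Q = Q' := Finset.ext fun i => (key i).2.1
    have e3 : E = E' := Finset.ext fun i => (key i).2.2
    subst e1 e2 e3
    rfl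

end Pool.Agent.DSX
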