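import Pool.Agent.DSX.Stm2

/-! Project DSX, piece UNC (helper9). -/

set_option autoImplicit false

namespace Pool.Agent.DSX

open Finset Pointwise

theorem t_UNC (h1 : S_UNA) (h2 : S_UNB) : S_UNC := by
  intro d A K hA hne hK
  obtain ⟨D, hD, hDA, hc⟩ := h1 d A hA
  have hpos : 0 < A.card := card_pos.2 hne
  have hDne : D.Nonempty := by
    rw [nonempty_iff_ne_empty]
    rintro rfl
    rw [sum_empty] at hc
    omega
  refine ⟨D, hD, hDne, fun x hx => (hDA x).1 hx, ?_⟩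
  have h3 := h2 d A D hA hDA
  have h4 : (∑ x ∈ D, (2 : ℝ) ^ (supp x).card) ^ 2 ≤ D.card * ∑ x ∈ D, ((2 : ℝ) ^ (supp x).card) ^ 2 :=
    sq_sum_le_card_mul_sum_sq
  have h5 : (∑ x ∈ D, (2 : ℝ) ^ (supp x).card) = A.card := by
    rw [hc]
    push_cast
    rfl
  have h6 : ∑ x ∈ D, ((2 : ℝ) ^ (supp x).card) ^ 2 ≤ ((A + A).card : ℝ) := by
    have h7 : ∑ x ∈ D, ((2 : ℝ) ^ (supp x).card) ^ 2 = ((∑ x ∈ D, 4 ^ (supp x).card : ℕ) : ℝ) := by
      push_cast
      refine sum_congr rfl fun x _ => ?_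
      rw [← pow_mul, mul_comm, pow_mul]
      norm_num
    rw [h7]
    exact_mod_cast h3
  rw [h5] at h4
  have hA0 : (0 : ℝ) < A.card := by exact_mod_cast hpos
  have hD0 : (0 : ℝ) ≤ D.card := Nat.cast_nonneg _
  have h8 : (A.card : ℝ) * A.card ≤ (K * D.card) * A.card := by
    calc (A.card : ℝ) * A.card = (A.card : ℝ) ^ 2 := (sq _).symm
      _ ≤ D.card * ∑ x ∈ D, ((2 : ℝ) ^ (supp x).card) ^ 2 := h4
      _ ≤ D.card * (K * A.card) := mul_le_mul_of_nonneg_left (h6.trans hK) hD0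
      _ = (K * D.card) * A.card := by ring
  exact le_of_mul_le_mul_right h8 hA0

end Pool.Agent.DSX
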